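import Mathlib

set_option autoImplicit false
set_option linter.unusedSectionVars false

/-!
Automorphism groups of (coloured) linear orders: convex subgroups, the maximal convex subgroup with
the limit property, and the structure of the quotient.
-/

namespace Pool.Agent.H669.LO

open Set

/-- A group of automorphisms of a linear order that contains all automorphisms which coincide
pointwise with elements of the group. -/
structure Full {L : Type} [LinearOrder L] (G : Subgroup (Equiv.Perm L)) : Prop where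
  mono : ∀ g ∈ G, StrictMono g
  pw : ∀ h : Equiv.Perm L, StrictMono h → (∀ x, ∃ g ∈ G, g x = h x) → h ∈ G

section basic

variable {L : Type} [LinearOrder L] {G : Subgroup (Equiv.Perm L)}

theorem Full.lt (hG : Full G) (g : G) {x y : L} : g.1 x < g.1 y ↔ x < y := (hG.mono g.1 g.2).lt_iff_lt

theorem Full.le (hG : Full G) (g : G) {x y : L} : g.1 x ≤ g.1 y ↔ x ≤ y := (hG.mono g.1 g.2).le_iff_le

theorem ap_mul (g h : G) (x : L) : (g * h).1 x = g.1 (h.1 x) := rfl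

theorem ap_inv (g : G) (x : L) : g.1 ((g⁻¹).1 x) = x := by
  rw [← ap_mul, mul_inv_cancel]
  rfl

theorem ap_inv' (g : G) (x : L) : (g⁻¹).1 (g.1 x) = x := by
  rw [← ap_mul, inv_mul_cancel]
  rfl

theorem ap_one (x : L) : (1 : G).1 x = x := rfl

/-- The pointwise minimum. -/
theorem Full.inf (hG : Full G) (u v : G) : ∃ w : G, ∀ y, w.1 y = min (u.1 y) (v.1 y) := by
  have hu : StrictMono u.1 := hG.mono _ u.2
  have hv : StrictMono v.1 := hG.mono _ v.2
  let w : Equiv.Perm L :=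
    { toFun := fun y => min (u.1 y) (v.1 y)
      invFun := fun z => max ((u⁻¹).1 z) ((v⁻¹).1 z)
      left_inv := by
        intro y
        show max ((u⁻¹).1 (min (u.1 y) (v.1 y))) ((v⁻¹).1 (min (u.1 y) (v.1 y))) = y
        rcases le_total (u.1 y) (v.1 y) with h | h
        · rw [min_eq_left h, ap_inv']
          apply max_eq_left
          rw [← hG.le v, ap_inv]
          exact h
        · rw [min_eq_right h, ap_inv']
          apply max_eq_right
          rw [← hG.le u, ap_inv]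
          exact h
      right_inv := by
        intro z
        show min (u.1 (max ((u⁻¹).1 z) ((v⁻¹).1 z))) (v.1 (max ((u⁻¹).1 z) ((v⁻¹).1 z))) = z
        rcases le_total ((u⁻¹).1 z) ((v⁻¹).1 z) with h | h
        · rw [max_eq_right h, ap_inv]
          apply min_eq_right
          rw [← hG.le u, ap_inv] at h
          exact h
        · rw [max_eq_left h, ap_inv]
          apply min_eq_left
          rw [← hG.le v, ap_inv] at h
          exact h }
  have hw : ∀ y, w y = min (u.1 y) (v.1 y) := fun y => rfl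
  refine ⟨⟨w, hG.pw w ?_ ?_⟩, hw⟩
  · intro x y hxy
    rw [hw, hw]
    exact lt_min ((min_le_left _ _).trans_lt (hu hxy)) ((min_le_right _ _).trans_lt (hv hxy))
  · intro x
    rw [hw]
    rcases le_total (u.1 x) (v.1 x) with h | h
    · exact ⟨u.1, u.2, (min_eq_left h).symm⟩
    · exact ⟨v.1, v.2, (min_eq_right h).symm⟩

/-- The pointwise maximum with the identity. -/
theorem Full.pos (hG : Full G) (u : G) : ∃ w : G, ∀ y, w.1 y = max (u.1 y) y := by
  obtain ⟨w, hw⟩ := hG.inf u⁻¹ 1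
  refine ⟨w⁻¹, fun y => ?_⟩
  have h1 : w.1 (max (u.1 y) y) = y := by
    rw [hw]
    rcases le_total (u.1 y) y with h | h
    · rw [max_eq_right h]
      apply min_eq_right
      rw [← hG.le u, ap_inv]
      exact h
    · rw [max_eq_left h, ap_inv']
      exact min_eq_left h
  conv_lhs => rw [← h1]
  exact ap_inv' _ _

/-- Restriction to an invariant convex set. -/
theorem Full.glue (hG : Full G) (k : G) (K : Set L) (hK : ∀ x ∈ K, ∀ y ∈ K, ∀ z, x ≤ z → z ≤ y → z ∈ K)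
    (hk : ∀ y, k.1 y ∈ K ↔ y ∈ K) :
    ∃ w : G, (∀ y ∈ K, w.1 y = k.1 y) ∧ ∀ y, y ∉ K → w.1 y = y := by
  classical
  have hk' : ∀ y, (k⁻¹).1 y ∈ K ↔ y ∈ K := by
    intro y
    rw [← hk, ap_inv]
  let w : Equiv.Perm L :=
    { toFun := fun y => if y ∈ K then k.1 y else y
      invFun := fun y => if y ∈ K then (k⁻¹).1 y else y
      left_inv := by
        intro y
        by_cases hy : y ∈ K
        · simp only [if_pos hy, if_pos ((hk y).2 hy), ap_inv']
        · simp only [if_neg hy]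
      right_inv := by
        intro y
        by_cases hy : y ∈ K
        · simp only [if_pos hy, if_pos ((hk' y).2 hy), ap_inv]
        · simp only [if_neg hy] }
  have h1 : ∀ y ∈ K, w y = k.1 y := fun y hy => if_pos hy
  have h2 : ∀ y, y ∉ K → w y = y := fun y hy => if_neg hy
  refine ⟨⟨w, hG.pw w ?_ ?_⟩, h1, h2⟩
  · intro x y hxy
    by_cases hx : x ∈ K <;> by_cases hy : y ∈ K
    · rw [h1 x hx, h1 y hy]
      exact (hG.lt k).2 hxy
    · rw [h1 x hx, h2 y hy]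
      by_contra hcon
      exact hy (hK x hx _ ((hk x).2 hx) y hxy.le (not_lt.1 hcon))
    · rw [h2 x hx, h1 y hy]
      by_contra hcon
      exact hx (hK _ ((hk y).2 hy) y hy x (not_lt.1 hcon) hxy.le)
    · rw [h2 x hx, h2 y hy]
      exact hxy
  · intro x
    by_cases hx : x ∈ K
    · exact ⟨k.1, k.2, (h1 x hx).symm⟩
    · exact ⟨1, G.one_mem, (h2 x hx).symm⟩

/-- The convex hull of the orbit of a point under the powers of an element. -/
def hull (k : G) (z : L) : Set L := {y | ∃ m n : ℤ, (k ^ m).1 z ≤ y ∧ y ≤ (k ^ n).1 z}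

theorem mem_hull (k : G) (z : L) : z ∈ hull k z :=
  ⟨0, 0, by rw [zpow_zero]; exact le_rfl, by rw [zpow_zero]; exact le_rfl⟩

theorem hull_conv (k : G) (z : L) : ∀ x ∈ hull k z, ∀ y ∈ hull k z, ∀ t, x ≤ t → t ≤ y →
    t ∈ hull k z := by
  rintro x ⟨m, -, h1, -⟩ y ⟨-, n, -, h2⟩ t h3 h4
  exact ⟨m, n, h1.trans h3, h4.trans h2⟩

theorem hull_inv (hG : Full G) (k : G) (z y : L) : k.1 y ∈ hull k z ↔ y ∈ hull k z := by
  constructor
  · rintro ⟨m, n, h1, h2⟩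
    refine ⟨m - 1, n - 1, ?_, ?_⟩
    · rw [← hG.le k, ← ap_mul, ← zpow_one_add, add_sub_cancel]
      exact h1
    · rw [← hG.le k, ← ap_mul, ← zpow_one_add, add_sub_cancel]
      exact h2
  · rintro ⟨m, n, h1, h2⟩
    refine ⟨1 + m, 1 + n, ?_, ?_⟩
    · rw [zpow_one_add, ap_mul, hG.le k]
      exact h1
    · rw [zpow_one_add, ap_mul, hG.le k]
      exact h2

end basic

section cvx

variable {L : Type} [LinearOrder L] {G : Subgroup (Equiv.Perm L)} (x0 : L)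

/-- Convex subgroups. -/
def Cvx (H : Subgroup G) : Prop :=
  ∀ g h : G, h ∈ H → x0 ≤ g.1 x0 → g.1 x0 ≤ h.1 x0 → g ∈ H

variable {x0}

theorem Cvx.stab {H : Subgroup G} (hH : Cvx x0 H) {g : G} (hg : g.1 x0 = x0) : g ∈ H :=
  hH g 1 H.one_mem hg.ge (by rw [ap_one]; exact hg.le)

theorem Cvx.same {H : Subgroup G} (hH : Cvx x0 H) {g h : G} (hg : g.1 x0 = h.1 x0) :
    g⁻¹ * h ∈ H := by
  refine hH.stab ?_
  rw [ap_mul, ← hg, ap_inv']

/-- A class between two points of one class is this class. -/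
theorem Cvx.btw (hG : Full G) {H : Subgroup G} (hH : Cvx x0 H) {a b c : G} (h : a⁻¹ * c ∈ H)
    (h1 : a.1 x0 ≤ b.1 x0) (h2 : b.1 x0 ≤ c.1 x0) : a⁻¹ * b ∈ H := by
  refine hH _ _ h ?_ ?_
  · rw [← hG.le a, ap_mul, ap_inv]
    exact h1
  · rw [← hG.le a, ap_mul, ap_mul, ap_inv, ap_inv]
    exact h2

theorem mem_symm {H : Subgroup G} {a b : G} (h : a⁻¹ * b ∈ H) : b⁻¹ * a ∈ H := by
  have := H.inv_mem h
  rwa [mul_inv_rev, inv_inv] at this

theorem mem_trans {H : Subgroup G} {a b c : G} (h : a⁻¹ * b ∈ H) (h' : b⁻¹ * c ∈ H) :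
    a⁻¹ * c ∈ H := by
  have := H.mul_mem h h'
  rwa [mul_assoc, mul_inv_cancel_left] at this

/-- The order of the classes. -/
theorem Cvx.ord (hG : Full G) {H : Subgroup G} (hH : Cvx x0 H) {a a' b b' : G} (ha : a⁻¹ * a' ∈ H)
    (hb : b⁻¹ * b' ∈ H) (hab : a⁻¹ * b ∉ H) (h : a.1 x0 < b.1 x0) : a'.1 x0 < b'.1 x0 := by
  by_contra hcon
  rw [not_lt] at hcon
  rcases le_total (a'.1 x0) (b.1 x0) with h1 | h1
  · have h2 := hH.btw hG (mem_symm hb) hcon h1
    exact hab (mem_trans ha (mem_symm (mem_trans hb h2)))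
  · exact hab (hH.btw hG ha h.le h1)

theorem mul_same {H : Subgroup G} {a b : G} (k : G) (h : a⁻¹ * b ∈ H) :
    (k * a)⁻¹ * (k * b) ∈ H := by
  rwa [mul_inv_rev, mul_assoc, inv_mul_cancel_left]

theorem mul_same_iff {H : Subgroup G} {a b : G} (k : G) :
    (k * a)⁻¹ * (k * b) ∈ H ↔ a⁻¹ * b ∈ H := by
  rw [mul_inv_rev, mul_assoc, inv_mul_cancel_left]

/-- Monotonicity of the map `a H ↦ a g H`. -/
theorem Cvx.monoA (hG : Full G) {H : Subgroup G} (hH : Cvx x0 H) {g : G}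
    (hN : ∀ k ∈ H, g⁻¹ * k * g ∈ H) {a b : G} (hab : a.1 x0 ≤ b.1 x0)
    (hne : (b * g)⁻¹ * (a * g) ∉ H) : ¬ (b * g).1 x0 < (a * g).1 x0 := by
  intro hlt
  obtain ⟨k, hk⟩ := hG.pos (b * a⁻¹)
  have h1 : (k * a).1 x0 = b.1 x0 := by
    rw [ap_mul, hk, ap_mul, ap_inv']
    exact max_eq_left hab
  have h2 : (k * a)⁻¹ * b ∈ H := hH.same h1
  have h3 : (k * a * g)⁻¹ * (b * g) ∈ H := by
    have := hN _ h2
    have e : g⁻¹ * ((k * a)⁻¹ * b) * g = (k * a * g)⁻¹ * (b * g) := by group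
    rwa [e] at this
  have h4 : (k * (a * g)).1 x0 < (a * g).1 x0 := by
    have h5 := hH.ord hG (a := b * g) (a' := k * a * g) (b := a * g) (b' := a * g) (mem_symm h3)
      (by rw [inv_mul_cancel]; exact H.one_mem) hne hlt
    rwa [mul_assoc] at h5
  rw [ap_mul, hk] at h4
  exact absurd (le_max_right _ _) (not_le.2 h4)

/-- Injectivity of the map `a H ↦ a g H`. -/
theorem Cvx.injB (hG : Full G) {H : Subgroup G} (hH : Cvx x0 H) {g : G}
    (hN : ∀ k ∈ H, g⁻¹ * k * g ∈ H) (hg : g ∉ H) {b : G} (hb : g⁻¹ * b * g ∈ H) : b ∈ H := by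
  have hpow : ∀ n : ℤ, g⁻¹ * (b ^ n * g) ∈ H := by
    intro n
    have := H.zpow_mem hb n
    have e : (g⁻¹ * b * g) ^ n = g⁻¹ * (b ^ n * g) := by
      rw [← mul_assoc]
      have := conj_zpow (a := g⁻¹) (b := b) (i := n)
      rw [inv_inv] at this
      exact this
    rwa [e] at this
  have hng : ∀ n : ℤ, b ^ n * g ∉ H := by
    intro n h
    apply hg
    have h1 := H.mul_mem h (H.inv_mem (hpow n))
    have e : b ^ n * g * (g⁻¹ * (b ^ n * g))⁻¹ = g := by group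
    rwa [e] at h1
  have hK : (g⁻¹).1 x0 ∉ hull b x0 := by
    rintro ⟨m, n, h1, h2⟩
    have a1 : (b ^ m * g).1 x0 ≤ x0 := by
      rw [← not_lt]
      intro h3
      refine hH.monoA hG hN (a := b ^ m) (b := g⁻¹) h1 ?_ ?_
      · rw [inv_mul_cancel, inv_one, one_mul]
        exact hng m
      · rw [inv_mul_cancel, ap_one]
        exact h3
    have a2 : x0 ≤ (b ^ n * g).1 x0 := by
      rw [← not_lt]
      intro h3
      refine hH.monoA hG hN (a := g⁻¹) (b := b ^ n) h2 ?_ ?_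
      · rw [inv_mul_cancel, mul_one]
        intro h4
        have := H.inv_mem h4
        rw [inv_inv] at this
        exact hng n this
      · rw [inv_mul_cancel, ap_one]
        exact h3
    have a3 : (b ^ m * g)⁻¹ * 1 ∈ H := by
      refine hH.btw hG (c := b ^ n * g) (mem_trans (mem_symm (hpow m)) (hpow n)) ?_ ?_
      · rw [ap_one]
        exact a1
      · rw [ap_one]
        exact a2
    rw [mul_one] at a3
    have := H.inv_mem a3
    rw [inv_inv] at this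
    exact hng m this
  obtain ⟨w, hw1, hw2⟩ := hG.glue b (hull b x0) (hull_conv b x0) (hull_inv hG b x0)
  have h1 : g * w * g⁻¹ ∈ H := by
    refine hH.stab ?_
    rw [ap_mul, ap_mul, hw2 _ hK, ap_inv]
  have h2 := hN _ h1
  have e : g⁻¹ * (g * w * g⁻¹) * g = w := by group
  rw [e] at h2
  have h3 : w⁻¹ * b ∈ H := hH.same (hw1 _ (mem_hull b x0))
  have := H.mul_mem h2 h3
  rwa [mul_inv_cancel_left] at this

theorem Cvx.mem_nrm (hG : Full G) {H : Subgroup G} (hH : Cvx x0 H) {g : G}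
    (hN : ∀ k ∈ H, g⁻¹ * k * g ∈ H) : g ∈ Subgroup.normalizer (H : Set G) := by
  by_cases hg : g ∈ H
  · exact Subgroup.le_normalizer hg
  rw [Subgroup.mem_normalizer_iff]
  intro h
  have e : g⁻¹ * (g * h * g⁻¹) * g = h := by group
  constructor
  · intro hh
    refine hH.injB hG hN hg ?_
    rwa [e]
  · intro hh
    have := hN _ hh
    rwa [e] at this

theorem nrm_conj {H : Subgroup G} {g : G} (hg : g ∈ Subgroup.normalizer (H : Set G)) {k : G} :
    g⁻¹ * k * g ∈ H ↔ k ∈ H := by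
  have := (Subgroup.mem_normalizer_iff.1 hg) (g⁻¹ * k * g)
  have e : g * (g⁻¹ * k * g) * g⁻¹ = k := by group
  rwa [e] at this

theorem Cvx.nrm (hG : Full G) {H : Subgroup G} (hH : Cvx x0 H) :
    Cvx x0 (Subgroup.normalizer (H : Set G)) := by
  intro k g hg h1 h2
  have hN : ∀ c ∈ H, g⁻¹ * c * g ∈ H := fun c hc => (nrm_conj hg).2 hc
  apply hH.mem_nrm hG
  intro c hc
  by_cases hk : k ∈ H
  · exact H.mul_mem (H.mul_mem (H.inv_mem hk) hc) hk
  by_cases hkg : k⁻¹ * g ∈ H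
  · -- `k` is in the normalizer
    have hk' : k ∈ Subgroup.normalizer (H : Set G) := by
      have := (Subgroup.normalizer (H : Set G)).mul_mem hg
        (Subgroup.le_normalizer (H.inv_mem hkg))
      have e : g * (k⁻¹ * g)⁻¹ = k := by group
      rwa [e] at this
    exact (nrm_conj hk').2 hc
  by_contra hcon
  have hcn : ∀ n : ℤ, g⁻¹ * (c ^ n * g) ∈ H := by
    intro n
    rw [← mul_assoc]
    exact (nrm_conj hg).2 (H.zpow_mem hc n)
  have hlt : k.1 x0 < g.1 x0 := by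
    rcases lt_or_eq_of_le h2 with h | h
    · exact h
    · exact absurd (hH.same h) hkg
  have hK : (k * g).1 x0 ∉ hull c (k.1 x0) := by
    rintro ⟨-, n, -, h3⟩
    have h4 : (c ^ n).1 (k.1 x0) < g.1 x0 := by
      have := hH.ord hG (a := c ^ n * k) (a' := c ^ n * k) (b := c ^ n * g) (b' := g)
        (by rw [inv_mul_cancel]; exact H.one_mem) (mem_symm (hcn n))
        (by rw [mul_same_iff]; exact hkg) ((hG.lt (c ^ n)).2 hlt)
      exact this
    have h5 : g.1 x0 ≤ (k * g).1 x0 := by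
      rw [← not_lt]
      intro h6
      have := hH.monoA hG hN (a := 1) (b := k) h1 ?_ ?_
      · exact this
      · rw [one_mul]
        intro h7
        have h8 := H.inv_mem h7
        have e : ((k * g)⁻¹ * g)⁻¹ = g⁻¹ * k * g := by group
        rw [e] at h8
        exact hk ((nrm_conj hg).1 h8)
      · rw [one_mul]
        exact h6
    exact absurd (h3.trans_lt h4) (not_lt.2 h5)
  obtain ⟨w, hw1, hw2⟩ := hG.glue c _ (hull_conv c (k.1 x0)) (hull_inv hG c (k.1 x0))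
  have h6 : (k * g)⁻¹ * (w * (k * g)) ∈ H := by
    refine hH.same ?_
    rw [ap_mul w, hw2 _ hK]
  have h7 : k⁻¹ * w * k ∈ H := by
    rw [← nrm_conj hg]
    have e : g⁻¹ * (k⁻¹ * w * k) * g = (k * g)⁻¹ * (w * (k * g)) := by group
    rwa [e]
  have h8 : (w * k)⁻¹ * (c * k) ∈ H := hH.same (hw1 _ (mem_hull c _))
  have h9 := H.mul_mem h7 h8
  have e : k⁻¹ * w * k * ((w * k)⁻¹ * (c * k)) = k⁻¹ * c * k := by group
  rw [e] at h9
  exact hcon h9

/-! ### Pointwise limits -/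

/-- `f` is a pointwise limit of elements of `G`. -/
def Lim (G : Subgroup (Equiv.Perm L)) (f : L → L) : Prop :=
  ∀ F : Finset L, ∃ g : G, ∀ x ∈ F, g.1 x = f x

theorem Lim.comp {f : L → L} (hf : Lim G f) (a b : G) : Lim G (fun y => a.1 (f (b.1 y))) := by
  classical
  intro F
  obtain ⟨g, hg⟩ := hf (F.image b.1)
  refine ⟨a * g * b, fun x hx => ?_⟩
  rw [ap_mul, ap_mul, hg _ (Finset.mem_image_of_mem _ hx)]

theorem Lim.pair {f : L → L} (hf : Lim G f) (x y : L) : ∃ g : G, g.1 x = f x ∧ g.1 y = f y := by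
  classical
  obtain ⟨g, hg⟩ := hf {x, y}
  exact ⟨g, hg x (by simp), hg y (by simp)⟩

variable (x0) in
/-- The limit property of a convex subgroup. -/
def PP (H : Subgroup G) : Prop :=
  ∀ f : L → L, Lim G f → f x0 = x0 → ∀ h ∈ H, ∃ h' ∈ H, f (h'.1 x0) = h.1 x0

theorem PP.nrm {H : Subgroup G} (hH : Cvx x0 H) (hP : PP x0 H) :
    PP x0 (Subgroup.normalizer (H : Set G)) := by
  intro f hf hf0 n hn
  obtain ⟨g, hg1, hg2⟩ := hf.pair x0 (n.1 x0)
  rw [hf0] at hg1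
  have hgH : g ∈ H := hH.stab hg1
  have h1 : n⁻¹ * g * n ∈ H := (nrm_conj hn).2 hgH
  have hf' := hf.comp ((n⁻¹ * g * n)⁻¹ * n⁻¹) n
  obtain ⟨h', hh', he⟩ := hP _ hf' (by
    show ((n⁻¹ * g * n)⁻¹ * n⁻¹).1 (f (n.1 x0)) = x0
    rw [← hg2, ← ap_mul, ← ap_mul]
    have e : (n⁻¹ * g * n)⁻¹ * n⁻¹ * g * n = 1 := by group
    rw [e]
    rfl) _ (H.inv_mem h1)
  refine ⟨n * h', (Subgroup.normalizer (H : Set G)).mul_mem hn (Subgroup.le_normalizer hh'), ?_⟩
  have h2 : (n⁻¹ * g * n)⁻¹.1 ((n⁻¹).1 (f ((n * h').1 x0))) = (n⁻¹ * g * n)⁻¹.1 x0 := he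
  have h3 := (n⁻¹ * g * n)⁻¹.1.injective h2
  have h4 := congrArg n.1 h3
  rwa [ap_inv] at h4

variable (G x0) in
/-- A maximal convex subgroup with the limit property. -/
theorem exists_max (hG : Full G) : ∃ H : Subgroup G, Cvx x0 H ∧ PP x0 H ∧
    ∀ g, (∀ k ∈ H, g⁻¹ * k * g ∈ H) → g ∈ H := by
  let S : Set (Subgroup G) := {H | Cvx x0 H ∧ PP x0 H}
  have h0 : MulAction.stabilizer G x0 ∈ S := by
    refine ⟨fun g h hh h1 h2 => ?_, fun f hf hf0 h hh => ⟨1, Subgroup.one_mem _, ?_⟩⟩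
    · rw [MulAction.mem_stabilizer_iff] at hh ⊢
      have hh' : h.1 x0 = x0 := hh
      rw [hh'] at h2
      exact le_antisymm h2 h1
    · have hh' : h.1 x0 = x0 := hh
      rw [hh', ap_one, hf0]
  obtain ⟨H, -, hH⟩ := zorn_le_nonempty₀ S (by
    intro c hc hch y hy
    refine ⟨sSup c, ?_, fun z hz => le_sSup hz⟩
    have hmem : ∀ g, g ∈ sSup c ↔ ∃ H ∈ c, g ∈ H := fun g =>
      Subgroup.mem_sSup_of_directedOn ⟨y, hy⟩ hch.directedOn
    refine ⟨fun g h hh h1 h2 => ?_, fun f hf hf0 h hh => ?_⟩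
    · obtain ⟨H, hHc, hhH⟩ := (hmem h).1 hh
      exact (hmem g).2 ⟨H, hHc, (hc hHc).1 g h hhH h1 h2⟩
    · obtain ⟨H, hHc, hhH⟩ := (hmem h).1 hh
      obtain ⟨h', h1, h2⟩ := (hc hHc).2 f hf hf0 h hhH
      exact ⟨h', (hmem h').2 ⟨H, hHc, h1⟩, h2⟩) _ h0
  refine ⟨H, hH.prop.1, hH.prop.2, fun g hg => ?_⟩
  have h1 : Subgroup.normalizer (H : Set G) ∈ S := ⟨hH.prop.1.nrm hG, hH.prop.2.nrm hH.prop.1⟩
  exact hH.le_of_ge h1 Subgroup.le_normalizer (hH.prop.1.mem_nrm hG hg)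

theorem PP.onto {H : Subgroup G} (hP : PP x0 H) (hH : H = ⊤) {f : L → L} (hf : Lim G f) :
    ∃ y, f y = x0 := by
  obtain ⟨g, hg, -⟩ := hf.pair x0 x0
  obtain ⟨h', -, h⟩ := hP _ (hf.comp g⁻¹ 1) (by
    show (g⁻¹).1 (f x0) = x0
    rw [← hg, ap_inv']) g⁻¹ (by rw [hH]; exact Subgroup.mem_top _)
  exact ⟨_, (g⁻¹).1.injective h⟩

/-! ### Few fixed classes -/

/-- The properties of the quotient by a maximal convex subgroup. -/
theorem Cvx.moveL (hG : Full G) {H : Subgroup G} (hH : Cvx x0 H)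
    (hT : ∀ g, (∀ k ∈ H, g⁻¹ * k * g ∈ H) → g ∈ H) {a b : G} (hab : a⁻¹ * b ∉ H) :
    ∃ u : G, (∀ y, y ≤ u.1 y) ∧ b⁻¹ * (u * b) ∉ H ∧
      (a.1 x0 < b.1 x0 → ∀ y, y ≤ a.1 x0 → u.1 y = y) ∧
      (b.1 x0 < a.1 x0 → ∀ y, a.1 x0 ≤ y → u.1 y = y) := by
  have h1 : ∃ k : G, a⁻¹ * (k * a) ∈ H ∧ b⁻¹ * (k * b) ∉ H := by
    by_contra hcon
    push Not at hcon
    apply hab
    apply hT
    intro k hk
    have := hcon (a * k * a⁻¹) (by
      have e : a⁻¹ * (a * k * a⁻¹ * a) = k := by group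
      rwa [e])
    have e : b⁻¹ * (a * k * a⁻¹ * b) = (a⁻¹ * b)⁻¹ * k * (a⁻¹ * b) := by group
    rwa [e] at this
  have h2 : ∃ k : G, a⁻¹ * (k * a) ∈ H ∧ b⁻¹ * (k * b) ∉ H ∧ b.1 x0 < (k * b).1 x0 := by
    obtain ⟨k, hk1, hk2⟩ := h1
    rcases lt_trichotomy (b.1 x0) ((k * b).1 x0) with h | h | h
    · exact ⟨k, hk1, hk2, h⟩
    · exact absurd (hH.same h) hk2
    · refine ⟨k⁻¹, ?_, ?_, ?_⟩
      · have := H.inv_mem hk1
        have e : (a⁻¹ * (k * a))⁻¹ = a⁻¹ * (k⁻¹ * a) := by group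
        rwa [e] at this
      · intro h3
        have := H.inv_mem h3
        have e : (b⁻¹ * (k⁻¹ * b))⁻¹ = b⁻¹ * (k * b) := by group
        rw [e] at this
        exact hk2 this
      · rw [← hG.lt k, ap_mul k⁻¹, ap_inv]
        exact h
  obtain ⟨k, hk1, hk2, hk3⟩ := h2
  obtain ⟨l, hl⟩ := hG.pos k
  have hl1 : a⁻¹ * (l * a) ∈ H := by
    rcases le_total (k.1 (a.1 x0)) (a.1 x0) with h | h
    · refine hH.same ?_
      rw [ap_mul, hl, max_eq_right h]
    · refine mem_trans hk1 (hH.same ?_)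
      rw [ap_mul, ap_mul, hl, max_eq_left h]
  have hl2 : (l * b).1 x0 = (k * b).1 x0 := by
    rw [ap_mul, hl]
    exact max_eq_left hk3.le
  have hln : ∀ n : ℤ, a⁻¹ * (l ^ n * a) ∈ H := by
    intro n
    have := H.zpow_mem hl1 n
    have e : (a⁻¹ * (l * a)) ^ n = a⁻¹ * (l ^ n * a) := by
      rw [← mul_assoc, ← mul_assoc]
      have := conj_zpow (a := a⁻¹) (b := l) (i := n)
      rw [inv_inv] at this
      exact this
    rwa [e] at this
  obtain ⟨u, hu1, hu2⟩ := hG.glue l _ (hull_conv l (b.1 x0)) (hull_inv hG l (b.1 x0))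
  have hub : (u * b).1 x0 = (l * b).1 x0 := hu1 _ (mem_hull l _)
  refine ⟨u, fun y => ?_, ?_, fun h y hy => hu2 y ?_, fun h y hy => hu2 y ?_⟩
  · by_cases hy : y ∈ hull l (b.1 x0)
    · rw [hu1 y hy, hl]
      exact le_max_right _ _
    · rw [hu2 y hy]
  · intro h3
    exact hk2 (mem_trans h3 (hH.same (hub.trans hl2)))
  · rintro ⟨m, -, h3, -⟩
    have := hH.ord hG (a := l ^ m * a) (a' := a) (b := l ^ m * b) (b' := l ^ m * b)
      (mem_symm (hln m)) (by rw [inv_mul_cancel]; exact H.one_mem)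
      (by rw [mul_same_iff]; exact hab) ((hG.lt (l ^ m)).2 h)
    exact absurd (h3.trans hy) (not_le.2 this)
  · rintro ⟨-, n, -, h3⟩
    have := hH.ord hG (a := l ^ n * b) (a' := l ^ n * b) (b := l ^ n * a) (b' := a)
      (by rw [inv_mul_cancel]; exact H.one_mem) (mem_symm (hln n))
      (by rw [mul_same_iff]; exact fun h4 => hab (mem_symm h4)) ((hG.lt (l ^ n)).2 h)
    exact absurd (hy.trans h3) (not_le.2 this)

theorem Cvx.moveB (hG : Full G) {H : Subgroup G} (hH : Cvx x0 H)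
    (hT : ∀ g, (∀ k ∈ H, g⁻¹ * k * g ∈ H) → g ∈ H) {a b c : G} (hab : a⁻¹ * b ∉ H)
    (hcb : c⁻¹ * b ∉ H) (h1 : a.1 x0 < b.1 x0) (h2 : b.1 x0 < c.1 x0) :
    ∃ w : G, b⁻¹ * (w * b) ∉ H ∧ b.1 x0 ≤ (w * b).1 x0 ∧ (∀ y, y ≤ a.1 x0 → w.1 y = y) ∧
      ∀ y, c.1 x0 ≤ y → w.1 y = y := by
  obtain ⟨u, hu1, hu2, hu3, -⟩ := hH.moveL hG hT hab
  obtain ⟨v, hv1, hv2, -, hv3⟩ := hH.moveL hG hT hcb
  obtain ⟨w, hw⟩ := hG.inf u v
  refine ⟨w, fun h3 => ?_, ?_, fun y hy => ?_, fun y hy => ?_⟩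
  · rcases le_total (u.1 (b.1 x0)) (v.1 (b.1 x0)) with h | h
    · refine hu2 (mem_trans h3 (hH.same ?_))
      rw [ap_mul, ap_mul, hw, min_eq_left h]
    · refine hv2 (mem_trans h3 (hH.same ?_))
      rw [ap_mul, ap_mul, hw, min_eq_right h]
  · rw [ap_mul, hw]
    exact le_min (hu1 _) (hv1 _)
  · rw [hw, hu3 h1 y hy]
    exact min_eq_left (hv1 y)
  · rw [hw, hv3 h2 y hy]
    exact min_eq_right (hu1 y)

theorem Cvx.pow_ne (hG : Full G) {H : Subgroup G} (hH : Cvx x0 H) {a k : G}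
    (h : a⁻¹ * (k * a) ∉ H) (j : ℕ) : a⁻¹ * (k ^ (j + 1) * a) ∉ H := by
  intro hj
  apply h
  rcases le_total (a.1 x0) ((k * a).1 x0) with h1 | h1
  · refine hH.btw hG hj h1 ?_
    have : ∀ j : ℕ, (k * a).1 x0 ≤ (k ^ (j + 1) * a).1 x0 := by
      intro j
      induction j with
      | zero => rw [zero_add, pow_one]
      | succ j ih =>
        refine ih.trans ?_
        rw [pow_succ (n := j + 1), mul_assoc]
        exact (hG.le (k ^ (j + 1))).2 h1
    exact this j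
  · have : ∀ j : ℕ, (k ^ (j + 1) * a).1 x0 ≤ (k * a).1 x0 := by
      intro j
      induction j with
      | zero => rw [zero_add, pow_one]
      | succ j ih =>
        refine le_trans ?_ ih
        rw [pow_succ (n := j + 1), mul_assoc]
        exact (hG.le (k ^ (j + 1))).2 h1
    have h2 := hH.btw hG (mem_symm hj) (this j) h1
    exact mem_trans hj h2

theorem Cvx.infinite (hG : Full G) {H : Subgroup G} (hH : Cvx x0 H) {a k : G}
    (h : a⁻¹ * (k * a) ∉ H) (S : Set (G ⧸ H))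
    (hS : ∀ n : ℕ, ((k ^ n * a : G) : G ⧸ H) ∈ S) : S.Infinite := by
  refine Set.infinite_of_injective_forall_mem (f := fun n : ℕ => ((k ^ n * a : G) : G ⧸ H)) ?_ hS
  have key : ∀ m n : ℕ, m < n → ((k ^ m * a : G) : G ⧸ H) ≠ ((k ^ n * a : G) : G ⧸ H) := by
    intro m n hmn he
    obtain ⟨j, rfl⟩ := Nat.exists_eq_add_of_lt hmn
    rw [QuotientGroup.eq, add_assoc, pow_add, mul_assoc, mul_same_iff] at he
    exact hH.pow_ne hG h j he
  intro m n hmn
  rcases lt_trichotomy m n with h1 | h1 | h1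
  · exact absurd hmn (key m n h1)
  · exact h1
  · exact absurd hmn.symm (key n m h1)

theorem smul_out {H : Subgroup G} (g : G) (ω : G ⧸ H) :
    g • ω = ((g * ω.out : G) : G ⧸ H) := by
  conv_lhs => rw [← Quotient.out_eq' ω]
  rfl

/-- There are only finitely many classes with a finite orbit under the stabilizer of a finite
set. -/
theorem Cvx.acl_finite (hG : Full G) {H : Subgroup G} (hH : Cvx x0 H)
    (hT : ∀ g, (∀ k ∈ H, g⁻¹ * k * g ∈ H) → g ∈ H) (F : Finset L) :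
    {ω : G ⧸ H | {ω' | ∃ g : G, (∀ x ∈ F, g.1 x = x) ∧ g • ω = ω'}.Finite}.Finite := by
  classical
  have hfix : ∀ ω : G ⧸ H, {ω' | ∃ g : G, (∀ x ∈ F, g.1 x = x) ∧ g • ω = ω'}.Finite →
      ∀ g : G, (∀ x ∈ F, g.1 x = x) → ω.out⁻¹ * (g * ω.out) ∈ H := by
    intro ω hω g hg
    by_contra hcon
    refine hH.infinite hG hcon _ (fun n => ?_) hω
    refine ⟨g ^ n, fun x hx => ?_, ?_⟩
    · induction n with
      | zero => rfl
      | succ n ih => rw [pow_succ, ap_mul, hg x hx, ih]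
    · exact smul_out _ _
  have hinj : Function.Injective (fun ω : G ⧸ H => ω.out.1 x0) := by
    intro ω ω' h
    rw [← Quotient.out_eq' ω, ← Quotient.out_eq' ω']
    exact QuotientGroup.eq.2 (hH.same h)
  have hsub : {ω : G ⧸ H | {ω' | ∃ g : G, (∀ x ∈ F, g.1 x = x) ∧ g • ω = ω'}.Finite} ⊆
      ⋃ S ∈ F.powerset, {ω : G ⧸ H | (∀ g : G, (∀ x ∈ F, g.1 x = x) →
        ω.out⁻¹ * (g * ω.out) ∈ H) ∧ F.filter (fun x => x ≤ ω.out.1 x0) = S} := by
    intro ω hω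
    exact Set.mem_iUnion₂.2 ⟨_, Finset.mem_powerset.2 (Finset.filter_subset _ _), hfix ω hω, rfl⟩
  refine Set.Finite.subset (Set.Finite.biUnion (Finset.finite_toSet _) fun S _ => ?_) hsub
  by_contra hcon
  have hcon' : Set.Infinite ((fun ω : G ⧸ H => ω.out.1 x0) '' {ω : G ⧸ H | (∀ g : G,
      (∀ x ∈ F, g.1 x = x) → ω.out⁻¹ * (g * ω.out) ∈ H) ∧
      F.filter (fun x => x ≤ ω.out.1 x0) = S}) :=
    (Set.infinite_image_iff hinj.injOn).2 hcon
  obtain ⟨t, ht, hcard⟩ := hcon'.exists_subset_card_eq 3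
  let e := t.orderEmbOfFin hcard
  have he : ∀ i : Fin 3, ∃ ω : G ⧸ H, ((∀ g : G,
      (∀ x ∈ F, g.1 x = x) → ω.out⁻¹ * (g * ω.out) ∈ H) ∧
      F.filter (fun x => x ≤ ω.out.1 x0) = S) ∧ ω.out.1 x0 = e i := by
    intro i
    obtain ⟨ω, h1, h2⟩ := ht (t.orderEmbOfFin_mem hcard i)
    exact ⟨ω, h1, h2⟩
  obtain ⟨ω1, ⟨-, h12⟩, h13⟩ := he 0
  obtain ⟨ω2, ⟨h21, -⟩, h23⟩ := he 1
  obtain ⟨ω3, ⟨-, h32⟩, h33⟩ := he 2
  have l12 : ω1.out.1 x0 < ω2.out.1 x0 := by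
    rw [h13, h23]
    exact e.strictMono (by decide)
  have l23 : ω2.out.1 x0 < ω3.out.1 x0 := by
    rw [h23, h33]
    exact e.strictMono (by decide)
  have hne : ∀ ω ω' : G ⧸ H, ω.out.1 x0 ≠ ω'.out.1 x0 → ω.out⁻¹ * ω'.out ∉ H := by
    intro ω ω' h h'
    apply h
    have h3 : ω = ω' := by
      rw [← Quotient.out_eq' ω, ← Quotient.out_eq' ω']
      exact QuotientGroup.eq.2 h'
    rw [h3]
  obtain ⟨w, hw1, -, hw2, hw3⟩ := hH.moveB hG hT (hne ω1 ω2 l12.ne) (hne ω3 ω2 l23.ne') l12 l23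
  refine hw1 (h21 w fun x hx => ?_)
  rcases le_or_gt x (ω1.out.1 x0) with h | h
  · exact hw2 x h
  · refine hw3 x ?_
    by_contra h4
    have h5 : x ∈ F.filter (fun x => x ≤ ω3.out.1 x0) :=
      Finset.mem_filter.2 ⟨hx, (not_le.1 h4).le⟩
    rw [h32, ← h12] at h5
    exact absurd (Finset.mem_filter.1 h5).2 (not_le.2 h)

/-- No class has a finite orbit. -/
theorem Cvx.orbit_inf (hG : Full G) {H : Subgroup G} (hH : Cvx x0 H) (hne : H ≠ ⊤) (ω : G ⧸ H) :
    {ω' | ∃ g : G, g • ω = ω'}.Infinite := by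
  obtain ⟨k, hk⟩ : ∃ k, k ∉ H := by
    by_contra hcon
    push Not at hcon
    exact hne (Subgroup.eq_top_iff' H |>.2 hcon)
  refine hH.infinite hG (a := ω.out) (k := ω.out * k * ω.out⁻¹) ?_ _ (fun n => ?_)
  · have e : ω.out⁻¹ * (ω.out * k * ω.out⁻¹ * ω.out) = k := by group
    rwa [e]
  · exact ⟨(ω.out * k * ω.out⁻¹) ^ n, smul_out _ _⟩

/-- The order of the classes is dense. -/
theorem Cvx.dense (hG : Full G) {H : Subgroup G} (hH : Cvx x0 H)
    (hT : ∀ g, (∀ k ∈ H, g⁻¹ * k * g ∈ H) → g ∈ H) {a b : G} (hab : a⁻¹ * b ∉ H)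
    (h : a.1 x0 < b.1 x0) :
    ∃ c : G, a⁻¹ * c ∉ H ∧ b⁻¹ * c ∉ H ∧ a.1 x0 < c.1 x0 ∧ c.1 x0 < b.1 x0 := by
  obtain ⟨u, hu1, hu2, hu3, -⟩ := hH.moveL hG hT hab
  have h1 : b.1 x0 < (u * b).1 x0 := by
    rcases lt_or_eq_of_le (hu1 (b.1 x0)) with h1 | h1
    · exact h1
    · exact absurd (hH.same h1) hu2
  have h2 : a⁻¹ * (u⁻¹ * a) ∈ H := by
    refine hH.same ?_
    have := congrArg (u⁻¹).1 (hu3 h _ le_rfl)
    rwa [ap_inv'] at this
  refine ⟨u⁻¹ * b, ?_, ?_, ?_, ?_⟩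
  · intro h3
    apply hab
    have := mem_trans (mem_symm h2) h3
    rwa [mul_same_iff] at this
  · intro h3
    have := H.inv_mem h3
    have e : (b⁻¹ * (u⁻¹ * b))⁻¹ = b⁻¹ * (u * b) := by group
    rw [e] at this
    exact hu2 this
  · rw [← hG.lt u, hu3 h _ le_rfl, ap_mul u⁻¹, ap_inv]
    exact h
  · rw [← hG.lt u, ap_mul u⁻¹, ap_inv]
    exact h1

/-- The orbit contains a copy of the rational numbers. -/
theorem Cvx.rat (hG : Full G) {H : Subgroup G} (hH : Cvx x0 H)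
    (hT : ∀ g, (∀ k ∈ H, g⁻¹ * k * g ∈ H) → g ∈ H) (hne : H ≠ ⊤) :
    ∃ e : ℚ → L, StrictMono e ∧ ∀ q, ∃ g : G, g.1 x0 = e q := by
  classical
  obtain ⟨k, hk⟩ : ∃ k, k ∉ H := by
    by_contra hcon
    push Not at hcon
    exact hne (Subgroup.eq_top_iff' H |>.2 hcon)
  let p : G ⧸ H → L := fun ω => ω.out.1 x0
  let T : Set L := Set.range p
  have hout : ∀ c : G, c⁻¹ * ((c : G) : G ⧸ H).out ∈ H := by
    intro c
    rw [← QuotientGroup.eq]
    exact (Quotient.out_eq' _).symm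
  haveI : DenselyOrdered T := by
    refine ⟨?_⟩
    rintro ⟨_, ω1, rfl⟩ ⟨_, ω3, rfl⟩ hlt
    have hlt' : ω1.out.1 x0 < ω3.out.1 x0 := hlt
    have hne' : ω1.out⁻¹ * ω3.out ∉ H := by
      intro h'
      have h3 : ω1 = ω3 := by
        rw [← Quotient.out_eq' ω1, ← Quotient.out_eq' ω3]
        exact QuotientGroup.eq.2 h'
      rw [h3] at hlt'
      exact lt_irrefl _ hlt'
    obtain ⟨c, h1, h2, h3, h4⟩ := hH.dense hG hT hne' hlt'
    refine ⟨⟨_, (c : G ⧸ H), rfl⟩, ?_, ?_⟩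
    · show ω1.out.1 x0 < ((c : G) : G ⧸ H).out.1 x0
      exact hH.ord hG (by rw [inv_mul_cancel]; exact H.one_mem) (hout c) h1 h3
    · show ((c : G) : G ⧸ H).out.1 x0 < ω3.out.1 x0
      exact hH.ord hG (hout c) (by rw [inv_mul_cancel]; exact H.one_mem)
        (fun h => h2 (mem_symm h)) h4
  haveI : Nontrivial T := by
    refine ⟨⟨⟨_, ((1 : G) : G ⧸ H), rfl⟩, ⟨_, (k : G ⧸ H), rfl⟩, ?_⟩⟩
    intro h
    have h1 : ((1 : G) : G ⧸ H).out.1 x0 = (k : G ⧸ H).out.1 x0 := congrArg Subtype.val h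
    apply hk
    have h2 := mem_trans (mem_trans (hout 1) (hH.same h1)) (mem_symm (hout k))
    rwa [inv_one, one_mul] at h2
  obtain ⟨e⟩ := Order.embedding_from_countable_to_dense ℚ T
  refine ⟨fun q => (e q).1, fun p q hpq => e.strictMono hpq, fun q => ?_⟩
  obtain ⟨ω, hω⟩ := (e q).2
  exact ⟨ω.out, hω⟩

end cvx

end Pool.Agent.H669.LO
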