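import Pool.Agent.H669.LO.Gen
import Pool.Agent.H669.LO.Chain

set_option autoImplicit false

/-!
A group of automorphisms of a linear order with a pointwise limit that is not onto has a generic
partial colouring, and an orbit which contains a copy of the rational numbers.
-/

namespace Pool.Agent.H669.LO

open Set

theorem exists_col (inst : LinearOrder ℕ) (G : Subgroup (Equiv.Perm ℕ)) (hG : @Full ℕ inst G)
    (f : ℕ → ℕ) (hf : Lim G f) (hns : ¬ Function.Surjective f) :
    (∃ col : ℕ → Option ℕ, (∀ n, ∃ m, col m = some n) ∧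
      ∀ π : Equiv.Perm ℕ, ∃ g : G, ∀ m, col (g.1 m) = (col m).map π) ∧
    ∃ (x0 : ℕ) (e : ℚ → ℕ), (∀ p q, p < q → inst.lt (e p) (e q)) ∧
      ∀ q, ∃ g : G, g.1 x0 = e q := by
  classical
  obtain ⟨x0, hx0⟩ : ∃ x0, ∀ y, f y ≠ x0 := by
    by_contra hcon
    push Not at hcon
    exact hns hcon
  obtain ⟨H, hH, hP, hT⟩ := @exists_max ℕ inst G x0 hG
  have hne : H ≠ ⊤ := by
    intro h
    obtain ⟨y, hy⟩ := hP.onto h hf
    exact hx0 y hy
  constructor
  · have hacl : ∀ F : Finset ℕ, (acl (G := G) (G ⧸ H) F).Finite := by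
      intro F
      refine (hH.acl_finite hG hT F).subset ?_
      intro ω hω
      refine Set.Finite.subset hω ?_
      rintro _ ⟨g, hg, rfl⟩
      exact ⟨⟨g, hg⟩, rfl⟩
    have hacl0 : ∀ ω : G ⧸ H, ω ∉ acl (G := G) (G ⧸ H) ∅ := by
      intro ω hω
      refine hH.orbit_inf hG hne ω (Set.Finite.subset hω ?_)
      rintro _ ⟨g, rfl⟩
      exact ⟨⟨g, fun x hx => absurd hx (Finset.notMem_empty x)⟩, rfl⟩
    have hcount : Countable (G ⧸ H) := by
      have : Function.Injective (fun ω : G ⧸ H => ω.out.1 x0) := by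
        intro ω ω' h
        rw [← Quotient.out_eq' ω, ← Quotient.out_eq' ω']
        exact QuotientGroup.eq.2 (hH.same h)
      exact this.countable
    obtain ⟨c, hc⟩ := exists_colouring (G := G) (Ω := G ⧸ H) hacl
    have hcl : ∀ σ : Equiv.Perm ℕ, (∀ F : Finset ℕ, ∃ g : G, ∀ x ∈ F, g.1 x = σ x) → σ ∈ G := by
      intro σ hσ
      refine hG.pw σ ?_ (fun x => ?_)
      · intro x y hxy
        obtain ⟨g, hg⟩ := hσ {x, y}
        rw [← hg x (by simp), ← hg y (by simp)]
        exact (hG.mono g.1 g.2) hxy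
      · obtain ⟨g, hg⟩ := hσ {x}
        exact ⟨g.1, g.2, hg x (by simp)⟩
    have hct : ∀ ω : G ⧸ H, ∃ F : Finset ℕ, ∀ g ∈ Fx G F, g • ω = ω := by
      intro ω
      refine ⟨{ω.out.1 x0}, fun g hg => ?_⟩
      have h1 : g.1 (ω.out.1 x0) = ω.out.1 x0 := hg _ (Finset.mem_singleton_self _)
      rw [smul_out]
      conv_rhs => rw [← Quotient.out_eq' ω]
      exact QuotientGroup.eq.2 (hH.same h1)
    have hlift : ∀ π : Equiv.Perm ℕ, ∃ g : G, ∀ ω : G ⧸ H, c (g • ω) = π (c ω) :=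
      fun π => lift_perm hacl hc hcl hct π (fun ω hω => absurd hω (hacl0 ω))
    let col : ℕ → Option ℕ := fun m =>
      if h : ∃ a : G, a.1 x0 = m then some (c ((h.choose : G) : G ⧸ H)) else none
    have hcol : ∀ a : G, col (a.1 x0) = some (c (a : G ⧸ H)) := by
      intro a
      have h : ∃ b : G, b.1 x0 = a.1 x0 := ⟨a, rfl⟩
      have h1 : col (a.1 x0) = some (c ((h.choose : G) : G ⧸ H)) := dif_pos h
      rw [h1]
      congr 2
      exact QuotientGroup.eq.2 (hH.same h.choose_spec)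
    have hcol' : ∀ m, (¬ ∃ a : G, a.1 x0 = m) → col m = none := fun m hm => dif_neg hm
    refine ⟨col, fun n => ?_, fun π => ?_⟩
    · obtain ⟨g, hg⟩ := hlift (Equiv.swap (c ((1 : G) : G ⧸ H)) n)
      refine ⟨(g * 1).1 x0, ?_⟩
      rw [hcol]
      have := hg ((1 : G) : G ⧸ H)
      rw [Equiv.swap_apply_left] at this
      rw [← this]
      rfl
    · obtain ⟨g, hg⟩ := hlift π
      refine ⟨g, fun m => ?_⟩
      by_cases h : ∃ a : G, a.1 x0 = m
      · obtain ⟨a, rfl⟩ := h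
        have h1 : g.1 (a.1 x0) = (g * a).1 x0 := rfl
        rw [h1, hcol, hcol, Option.map_some, ← hg]
        rfl
      · rw [hcol' m h, hcol' _ ?_]
        · rfl
        · rintro ⟨a, ha⟩
          refine h ⟨g⁻¹ * a, ?_⟩
          rw [ap_mul, ha, ap_inv']
  · obtain ⟨e, he1, he2⟩ := hH.rat hG hT hne
    exact ⟨x0, e, fun p q hpq => he1 hpq, he2⟩

end Pool.Agent.H669.LO
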