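import Pool.Graph.R_seed8.W889.SD.Enum
import Pool.Graph.R_seed8.Helper750.Orbit

set_option autoImplicit false

/-!
Expansions of a fixed countable structure by two binary relations are faithfully complete as soon
as the structure has a partial colouring with infinitely many colours such that every permutation
of the colours is induced by an automorphism.
-/

namespace Pool.Agent.H669.LO

open Set
open Pool.Agent.W889.VC
open Pool.Agent.W889.SD

section abs

variable {X : Type} (enc : X → ℕ → List ℕ → ℕ)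

/-- `σ` is an isomorphism from `x` to `y`. -/
def IsI (σ : Equiv.Perm ℕ) (x y : X) : Prop := ∀ n l, enc y n (l.map σ) = enc x n l

theorem IsI.one (x : X) : IsI enc 1 x x := by
  intro n l
  simp

variable {enc}

theorem IsI.mul {σ τ : Equiv.Perm ℕ} {x y z : X} (h : IsI enc σ x y) (h' : IsI enc τ y z) :
    IsI enc (τ * σ) x z := by
  intro n l
  rw [← h n l, ← h' n (l.map σ), List.map_map]
  rfl

theorem IsI.inv {σ : Equiv.Perm ℕ} {x y : X} (h : IsI enc σ x y) : IsI enc σ⁻¹ y x := by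
  intro n l
  rw [← h n, List.map_map]
  congr 1
  conv_rhs => rw [← List.map_id l]
  exact List.map_congr_left fun i _ => by simp

/-- isomorphism of expansions -/
def EI (enc : X → ℕ → List ℕ → ℕ) (y z : X × (BinStr × BinStr)) : Prop :=
  ∃ σ : Equiv.Perm ℕ, IsI enc σ y.1 z.1 ∧
    ∀ m n, z.2.1 (σ m) (σ n) = y.2.1 m n ∧ z.2.2 (σ m) (σ n) = y.2.2 m n

theorem EI.symm {y z : X × (BinStr × BinStr)} (h : EI enc y z) : EI enc z y := by
  obtain ⟨σ, h1, h2⟩ := h
  refine ⟨σ⁻¹, h1.inv, fun m n => ?_⟩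
  have e : ∀ m, σ (σ⁻¹ m) = m := fun m => σ.apply_symm_apply m
  have := h2 (σ⁻¹ m) (σ⁻¹ n)
  rw [e, e] at this
  exact ⟨this.1.symm, this.2.symm⟩

variable [MeasurableSpace X]

/-- Scott's theorem for pairs. -/
theorem scott (hm : ∀ n l, Measurable (fun x : X => enc x n l)) (x0 : X) (e0 : BinStr) :
    MeasurableSet {p : X × BinStr | ∃ σ, IsI enc σ x0 p.1 ∧ ∀ m n, p.2 (σ m) (σ n) = e0 m n} := by
  classical
  let cod : X × BinStr → (ℕ → List ℕ → ℕ) := fun p n l =>
    Nat.pair n (Nat.pair (enc p.1 n l) (if p.2 (l.getD 0 0) (l.getD 1 0) = true ∧ l.length = 2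
      then 1 else 0))
  have hcod : Measurable cod := by
    refine measurable_pi_iff.2 fun n => measurable_pi_iff.2 fun l => ?_
    have h1 : Measurable (fun p : X × BinStr => enc p.1 n l) := (hm n l).comp measurable_fst
    have h2 : Measurable (fun p : X × BinStr => p.2 (l.getD 0 0) (l.getD 1 0)) := by
      have h2' : Measurable (fun q : BinStr => q (l.getD 0 0) (l.getD 1 0)) :=
        (measurable_pi_apply (l.getD 1 0)).comp (measurable_pi_apply (l.getD 0 0))
      exact h2'.comp measurable_snd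
    have h3 : Measurable (fun p : X × BinStr => (if p.2 (l.getD 0 0) (l.getD 1 0) = true ∧
        l.length = 2 then 1 else 0 : ℕ)) := by
      have : (fun p : X × BinStr => (if p.2 (l.getD 0 0) (l.getD 1 0) = true ∧
        l.length = 2 then 1 else 0 : ℕ)) = (fun b : Bool => (if b = true ∧
        l.length = 2 then 1 else 0 : ℕ)) ∘ fun p : X × BinStr => p.2 (l.getD 0 0) (l.getD 1 0) :=
        rfl
      rw [this]
      exact (measurable_of_countable _).comp h2
    have h4 : Measurable (fun q : ℕ × ℕ => Nat.pair n (Nat.pair q.1 q.2)) :=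
      measurable_of_countable _
    exact h4.comp (h1.prodMk h3)
  have h := hcod (Pool.Agent.Helper750.Orbit.measurableSet_orbit (cod (x0, e0)))
  refine (congrArg MeasurableSet (Set.ext fun p => ?_)).mp h
  show (∃ σ π : Equiv.Perm ℕ, ∀ n l, cod p (π n) (l.map σ) = cod (x0, e0) n l) ↔
    ∃ σ, IsI enc σ x0 p.1 ∧ ∀ m n, p.2 (σ m) (σ n) = e0 m n
  constructor
  · rintro ⟨σ, π, h⟩
    have hπ : ∀ n, π n = n := fun n => (Nat.pair_eq_pair.1 (h n [])).1
    refine ⟨σ, fun n l => ?_, fun m n => ?_⟩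
    · have h1 := h n l
      rw [hπ n] at h1
      exact (Nat.pair_eq_pair.1 (Nat.pair_eq_pair.1 h1).2).1
    · have h1 := h 0 [m, n]
      rw [hπ 0] at h1
      have h2 := (Nat.pair_eq_pair.1 (Nat.pair_eq_pair.1 h1).2).2
      simp only [List.map_cons, List.map_nil, List.getD_cons_zero, List.getD_cons_succ,
        List.length_cons, List.length_nil, and_true] at h2
      cases e1 : p.2 (σ m) (σ n) <;> cases e2 : e0 m n <;> simp [e1, e2] at h2 ⊢
  · rintro ⟨σ, h1, h2⟩
    refine ⟨σ, 1, fun n l => ?_⟩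
    show cod p n (l.map σ) = cod (x0, e0) n l
    simp only [cod]
    rw [h1 n l, List.length_map]
    by_cases hl : l.length = 2
    · obtain ⟨a, b, rfl⟩ := List.length_eq_two.1 hl
      simp [h2]
    · simp [hl]

/-! ### The interpretation -/

open Classical in
/-- the equivalence relation of a partial colouring -/
noncomputable def eqv (col : ℕ → Option ℕ) : BinStr := fun m n =>
  decide (col m = col n ∧ col m ≠ none)

theorem eqv_iff {col : ℕ → Option ℕ} {m n : ℕ} :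
    eqv col m n = true ↔ col m = col n ∧ col m ≠ none := by
  simp [eqv]

/-- good expansions -/
def Wd (enc : X → ℕ → List ℕ → ℕ) (x0 : X) (col : ℕ → Option ℕ) (y : X × (BinStr × BinStr)) :
    Prop :=
  (∃ σ, IsI enc σ x0 y.1 ∧ ∀ m n, y.2.1 (σ m) (σ n) = eqv col m n) ∧
  (∀ m n, y.2.2 m n = true → y.2.1 m m = true ∧ y.2.1 n n = true) ∧
  (∀ m m' n n', y.2.1 m m' = true → y.2.1 n n' = true →
    (y.2.2 m n = true ↔ y.2.2 m' n' = true)) ∧ IsGraph y.2.2

/-- the class of expansions -/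
def Kx (enc : X → ℕ → List ℕ → ℕ) (x0 : X) (y : X × (BinStr × BinStr)) : Prop :=
  (∃ σ, IsI enc σ x0 y.1) ∧ (∀ m n, y.2.1 m n = true → y.2.1 n m = true) ∧ IsGraph y.2.2

/-- representatives -/
def Rp (y : X × (BinStr × BinStr)) (u : ℕ) : Prop :=
  y.2.1 u u = true ∧ ∀ v < u, ¬ y.2.1 v u = true

/-- the relation on the representatives -/
def Rr (y : X × (BinStr × BinStr)) (u v : ℕ) : Prop := y.2.2 u v = true

/-- labelled expansions -/
structure Lb (κ : ℕ → Option ℕ) (y : X × (BinStr × BinStr)) : Prop where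
  onto : ∀ n, ∃ m, κ m = some n
  e : ∀ m n, y.2.1 m n = true ↔ κ m = κ n ∧ κ m ≠ none
  s : ∀ m n, y.2.2 m n = true → κ m ≠ none ∧ κ n ≠ none
  c : ∀ m m' n n', κ m = κ m' → κ n = κ n' → y.2.2 m n = y.2.2 m' n'

omit [MeasurableSpace X] in
theorem Lb.ex {κ : ℕ → Option ℕ} {y : X × (BinStr × BinStr)} (h : Lb κ y) {m : ℕ}
    (hm : κ m ≠ none) : ∃ u, Rp y u ∧ κ u = κ m := by
  classical
  have hex : ∃ u, κ u = κ m := ⟨m, rfl⟩
  refine ⟨Nat.find hex, ⟨?_, fun v hv hvu => ?_⟩, Nat.find_spec hex⟩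
  · rw [h.e]
    refine ⟨rfl, ?_⟩
    rw [Nat.find_spec hex]
    exact hm
  · have h1 := ((h.e _ _).1 hvu).1
    exact Nat.find_min hex hv (h1.trans (Nat.find_spec hex))

omit [MeasurableSpace X] in
theorem Lb.uniq {κ : ℕ → Option ℕ} {y : X × (BinStr × BinStr)} (h : Lb κ y) {u v : ℕ}
    (hu : Rp y u) (hv : Rp y v) (huv : κ u = κ v) : u = v := by
  have hn : κ u ≠ none := ((h.e _ _).1 hu.1).2
  rcases lt_trichotomy u v with h1 | h1 | h1
  · exact absurd ((h.e _ _).2 ⟨huv, hn⟩) (hv.2 u h1)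
  · exact h1
  · exact absurd ((h.e _ _).2 ⟨huv.symm, huv ▸ hn⟩) (hu.2 v h1)

omit [MeasurableSpace X] in
theorem Rp.ne {κ : ℕ → Option ℕ} {y : X × (BinStr × BinStr)} (h : Lb κ y) {u : ℕ}
    (hu : Rp y u) : κ u ≠ none := ((h.e _ _).1 hu.1).2

omit [MeasurableSpace X] in
theorem Lb.inf {κ : ℕ → Option ℕ} {y : X × (BinStr × BinStr)} (h : Lb κ y) :
    ∀ N, ∃ u, N ≤ u ∧ Rp y u := by
  intro N
  by_contra hcon
  push Not at hcon
  have h1 : ∀ n, ∃ u : Fin N, κ u = some n := by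
    intro n
    obtain ⟨m, hm⟩ := h.onto n
    obtain ⟨u, hu, hum⟩ := h.ex (m := m) (by rw [hm]; exact Option.some_ne_none n)
    have : u < N := by
      by_contra h2
      exact hcon u (not_lt.1 h2) hu
    exact ⟨⟨u, this⟩, hum.trans hm⟩
  choose f hf using h1
  have hinj : Function.Injective f := by
    intro m n hmn
    have := (hf m).symm.trans (hmn ▸ hf n)
    exact Option.some_injective _ this
  exact not_injective_infinite_finite f hinj

variable {enc : X → ℕ → List ℕ → ℕ} {x0 : X} {col : ℕ → Option ℕ}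

omit [MeasurableSpace X] in
theorem Wd.lb (hcol : ∀ n, ∃ m, col m = some n) {y : X × (BinStr × BinStr)}
    (h : Wd enc x0 col y) : ∃ σ, IsI enc σ x0 y.1 ∧ Lb (fun m => col (σ⁻¹ m)) y := by
  obtain ⟨⟨σ, h1, h2⟩, h3, h4, -⟩ := h
  have e : ∀ m, σ (σ⁻¹ m) = m := fun m => σ.apply_symm_apply m
  have e' : ∀ m, σ⁻¹ (σ m) = m := fun m => σ.symm_apply_apply m
  have k : ∀ m n, y.2.1 m n = true ↔ col (σ⁻¹ m) = col (σ⁻¹ n) ∧ col (σ⁻¹ m) ≠ none := by
    intro m n
    have := h2 (σ⁻¹ m) (σ⁻¹ n)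
    rw [e, e] at this
    rw [this, eqv_iff]
  have s : ∀ m n, y.2.2 m n = true → col (σ⁻¹ m) ≠ none ∧ col (σ⁻¹ n) ≠ none := by
    intro m n h
    obtain ⟨h5, h6⟩ := h3 m n h
    exact ⟨((k _ _).1 h5).2, ((k _ _).1 h6).2⟩
  refine ⟨σ, h1, ⟨fun n => ?_, k, s, ?_⟩⟩
  · obtain ⟨m, hm⟩ := hcol n
    exact ⟨σ m, by simp only [e']; exact hm⟩
  · intro m m' n n' hm hn
    by_cases h5 : col (σ⁻¹ m) ≠ none ∧ col (σ⁻¹ n) ≠ none
    · rw [Bool.eq_iff_iff]
      exact h4 m m' n n' ((k _ _).2 ⟨hm, h5.1⟩) ((k _ _).2 ⟨hn, h5.2⟩)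
    · have a1 : y.2.2 m n = false := by
        rw [Bool.eq_false_iff]
        exact fun h => h5 (s _ _ h)
      have a2 : y.2.2 m' n' = false := by
        rw [Bool.eq_false_iff]
        intro h
        have := s _ _ h
        rw [← hm, ← hn] at this
        exact h5 this
      rw [a1, a2]

omit [MeasurableSpace X] in
/-- isomorphic expansions have isomorphic decodings -/
theorem forth' {κ μ : ℕ → Option ℕ} {y z : X × (BinStr × BinStr)} (hy : Lb κ y) (hz : Lb μ z)
    {σ : Equiv.Perm ℕ}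
    (h : ∀ m n, z.2.1 (σ m) (σ n) = y.2.1 m n ∧ z.2.2 (σ m) (σ n) = y.2.2 m n) :
    ∃ π : {u // Rp y u} ≃ {u // Rp z u}, ∀ u v : {u // Rp y u}, Rr y u v ↔ Rr z (π u) (π v) := by
  have e : ∀ m, σ (σ⁻¹ m) = m := fun m => σ.apply_symm_apply m
  have key : ∀ m n, κ m = κ n ∧ κ m ≠ none ↔ μ (σ m) = μ (σ n) ∧ μ (σ m) ≠ none := by
    intro m n
    rw [← hy.e, ← hz.e, (h m n).1]
  obtain ⟨π, hπ⟩ := equiv_of_rel
    (fun (u : {u // Rp y u}) (v : {u // Rp z u}) => μ (σ u) = μ v ∧ μ (σ u) ≠ none)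
    (fun u => by
      have h1 := ((key u u).1 ⟨rfl, u.2.ne hy⟩).2
      obtain ⟨v, h2, h3⟩ := hz.ex h1
      exact ⟨⟨v, h2⟩, h3.symm, h1⟩)
    (fun v => by
      have h0 : μ v ≠ none := v.2.ne hz
      have h1 : κ (σ⁻¹ v) ≠ none := by
        refine ((key (σ⁻¹ v) (σ⁻¹ v)).2 ⟨rfl, ?_⟩).2
        rw [e]
        exact h0
      obtain ⟨u, h2, h3⟩ := hy.ex h1
      have h4 := (key u (σ⁻¹ v)).1 ⟨h3, h3 ▸ h1⟩
      rw [e] at h4
      exact ⟨⟨u, h2⟩, h4⟩)
    (fun u v v' h1 h2 => Subtype.ext (hz.uniq v.2 v'.2 (h1.1.symm.trans h2.1)))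
    (fun u u' v h1 h2 => Subtype.ext (hy.uniq u.2 u'.2
      ((key _ _).2 ⟨h1.1.trans h2.1.symm, h1.2⟩).1))
  refine ⟨π, fun u v => ?_⟩
  unfold Rr
  rw [← hz.c _ _ _ _ (hπ u).1 (hπ v).1, (h u v).2]

omit [MeasurableSpace X] in
/-- a bijection of the representatives induces a permutation of the labels -/
theorem perm_of {κ μ : ℕ → Option ℕ} {y z : X × (BinStr × BinStr)} (hy : Lb κ y) (hz : Lb μ z)
    (π : {u // Rp y u} ≃ {u // Rp z u}) :
    ∃ ρ : Equiv.Perm ℕ, ∀ u : {u // Rp y u}, μ (π u) = (κ u).map ρ := by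
  obtain ⟨ρ, hρ⟩ := equiv_of_rel
    (fun m n => ∃ u : {u // Rp y u}, κ u = some m ∧ μ (π u) = some n)
    (fun m => by
      obtain ⟨w, hw⟩ := hy.onto m
      obtain ⟨u, hu, huw⟩ := hy.ex (m := w) (by rw [hw]; exact Option.some_ne_none m)
      obtain ⟨n, hn⟩ := Option.ne_none_iff_exists'.1 ((π ⟨u, hu⟩).2.ne hz)
      exact ⟨n, ⟨u, hu⟩, huw.trans hw, hn⟩)
    (fun n => by
      obtain ⟨w, hw⟩ := hz.onto n
      obtain ⟨v, hv, hvw⟩ := hz.ex (m := w) (by rw [hw]; exact Option.some_ne_none n)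
      obtain ⟨m, hm⟩ := Option.ne_none_iff_exists'.1 ((π.symm ⟨v, hv⟩).2.ne hy)
      refine ⟨m, π.symm ⟨v, hv⟩, hm, ?_⟩
      rw [Equiv.apply_symm_apply]
      exact hvw.trans hw)
    (fun m n n' => by
      rintro ⟨u, h1, h2⟩ ⟨u', h3, h4⟩
      have : u = u' := Subtype.ext (hy.uniq u.2 u'.2 (h1.trans h3.symm))
      subst this
      exact Option.some_injective _ (h2.symm.trans h4))
    (fun m m' n => by
      rintro ⟨u, h1, h2⟩ ⟨u', h3, h4⟩
      have h5 : π u = π u' := Subtype.ext (hz.uniq (π u).2 (π u').2 (h2.trans h4.symm))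
      have : u = u' := π.injective h5
      subst this
      exact Option.some_injective _ (h1.symm.trans h3))
  refine ⟨ρ, fun u => ?_⟩
  obtain ⟨m, hm⟩ := Option.ne_none_iff_exists'.1 (u.2.ne hy)
  obtain ⟨u', h1, h2⟩ := hρ m
  have : u = u' := Subtype.ext (hy.uniq u.2 u'.2 (hm.trans h1.symm))
  subst this
  rw [h2, h1]
  rfl

omit [MeasurableSpace X] in
/-- expansions with isomorphic decodings are isomorphic -/
theorem back' (hcol : ∀ n, ∃ m, col m = some n)
    (hlift : ∀ ρ : Equiv.Perm ℕ, ∃ g, IsI enc g x0 x0 ∧ ∀ m, col (g m) = (col m).map ρ)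
    {y z : X × (BinStr × BinStr)} (hy : Wd enc x0 col y) (hz : Wd enc x0 col z)
    (h : ∃ π : {u // Rp y u} ≃ {u // Rp z u}, ∀ u v : {u // Rp y u}, Rr y u v ↔ Rr z (π u) (π v)) :
    EI enc y z := by
  obtain ⟨σ, hσ, ly⟩ := hy.lb hcol
  obtain ⟨τ, hτ, lz⟩ := hz.lb hcol
  obtain ⟨π, hπ⟩ := h
  obtain ⟨ρ, hρ⟩ := perm_of ly lz π
  obtain ⟨g, hg, hg'⟩ := hlift ρ
  have e : ∀ m, τ⁻¹ ((τ * (g * σ⁻¹)) m) = g (σ⁻¹ m) := fun m => by simp
  have key : ∀ m, col (τ⁻¹ ((τ * (g * σ⁻¹)) m)) = (col (σ⁻¹ m)).map ρ := by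
    intro m
    rw [e, hg']
  refine ⟨τ * (g * σ⁻¹), (hσ.inv.mul hg).mul hτ, fun m n => ⟨?_, ?_⟩⟩
  · rw [Bool.eq_iff_iff, lz.e, ly.e, key, key]
    simp only [ne_eq, Option.map_eq_none_iff]
    rw [(Option.map_injective ρ.injective).eq_iff]
  · by_cases h5 : col (σ⁻¹ m) ≠ none ∧ col (σ⁻¹ n) ≠ none
    · obtain ⟨u, hu, hum⟩ := ly.ex (m := m) h5.1
      obtain ⟨v, hv, hvn⟩ := ly.ex (m := n) h5.2
      have a1 := ly.c _ _ _ _ hum hvn
      have a2 := hπ ⟨u, hu⟩ ⟨v, hv⟩
      have a3 : z.2.2 ((τ * (g * σ⁻¹)) m) ((τ * (g * σ⁻¹)) n) =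
          z.2.2 (π ⟨u, hu⟩ : ℕ) (π ⟨v, hv⟩ : ℕ) := by
        refine lz.c _ _ _ _ ?_ ?_
        · rw [key, hρ]
          simp only at hum ⊢
          rw [hum]
        · rw [key, hρ]
          simp only at hvn ⊢
          rw [hvn]
      rw [a3, ← a1, Bool.eq_iff_iff]
      exact a2.symm
    · have a1 : y.2.2 m n = false := by
        rw [Bool.eq_false_iff]
        exact fun h => h5 (ly.s _ _ h)
      have a2 : z.2.2 ((τ * (g * σ⁻¹)) m) ((τ * (g * σ⁻¹)) n) = false := by
        rw [Bool.eq_false_iff]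
        intro h
        have := lz.s _ _ h
        rw [key, key] at this
        simp only [ne_eq, Option.map_eq_none_iff] at this
        exact h5 this
      rw [a1, a2]

omit [MeasurableSpace X] in
theorem Wd.equi {y z : X × (BinStr × BinStr)} (h : EI enc y z) (hy : Wd enc x0 col y) :
    Wd enc x0 col z := by
  obtain ⟨τ, k1, k2⟩ := h
  obtain ⟨⟨σ, h1, h2⟩, h3, h4, h5⟩ := hy
  have e : ∀ m, ∃ u, τ u = m := fun m => ⟨τ⁻¹ m, τ.apply_symm_apply m⟩
  refine ⟨⟨τ * σ, h1.mul k1, fun m n => ?_⟩, fun m n => ?_, fun m m' n n' => ?_,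
    isGraph_equi ⟨τ, fun m n => (k2 m n).2⟩ h5⟩
  · rw [← h2 m n]
    exact (k2 _ _).1
  · obtain ⟨m, rfl⟩ := e m
    obtain ⟨n, rfl⟩ := e n
    rw [(k2 _ _).1, (k2 _ _).1, (k2 _ _).2]
    exact h3 m n
  · obtain ⟨m, rfl⟩ := e m
    obtain ⟨n, rfl⟩ := e n
    obtain ⟨m', rfl⟩ := e m'
    obtain ⟨n', rfl⟩ := e n'
    rw [(k2 _ _).1, (k2 _ _).1, (k2 _ _).2, (k2 _ _).2]
    exact h4 m m' n n'

open Classical in
/-- the expansion coding a binary relation -/
noncomputable def cdx (x0 : X) (col : ℕ → Option ℕ) (x : BinStr) : X × (BinStr × BinStr) :=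
  (x0, eqv col, fun m n => decide (∃ p q, col m = some p ∧ col n = some q ∧ x p q = true))

omit [MeasurableSpace X] in
theorem cdx_iff {x : BinStr} {m n : ℕ} : (cdx x0 col x).2.2 m n = true ↔
    ∃ p q, col m = some p ∧ col n = some q ∧ x p q = true := by
  simp [cdx]

omit [MeasurableSpace X] in
theorem cdx_wd (x : BinStr) (hx : IsGraph x) : Wd enc x0 col (cdx x0 col x) := by
  refine ⟨⟨1, IsI.one enc x0, fun m n => rfl⟩, fun m n h => ?_, fun m m' n n' h1 h2 => ?_, ?_⟩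
  · obtain ⟨p, q, h1, h2, -⟩ := cdx_iff.1 h
    exact ⟨eqv_iff.2 ⟨rfl, by rw [h1]; exact Option.some_ne_none p⟩,
      eqv_iff.2 ⟨rfl, by rw [h2]; exact Option.some_ne_none q⟩⟩
  · rw [cdx_iff, cdx_iff, (eqv_iff.1 h1).1, (eqv_iff.1 h2).1]
  · refine ⟨fun m => ?_, fun m n h => ?_⟩
    · rw [Bool.eq_false_iff]
      intro h
      obtain ⟨p, q, h1, h2, h3⟩ := cdx_iff.1 h
      rw [h1] at h2
      rw [Option.some_injective _ h2, hx.irrefl] at h3
      exact absurd h3 (by decide)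
    · obtain ⟨p, q, h1, h2, h3⟩ := cdx_iff.1 h
      exact cdx_iff.2 ⟨q, p, h2, h1, hx.symm _ _ h3⟩

theorem bp_Wd (hm : ∀ n l, Measurable (fun x : X => enc x n l)) :
    BP (fun y : X × (BinStr × BinStr) => Wd enc x0 col y) := by
  have hat : ∀ m n, BP (fun y : X × (BinStr × BinStr) => y.2.1 m n = true) := fun m n => by
    have h2' : Measurable (fun q : BinStr => q m n) :=
      (measurable_pi_apply n).comp (measurable_pi_apply m)
    have h3 : Measurable (fun y : X × (BinStr × BinStr) => y.2.1 m n) :=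
      h2'.comp (measurable_fst.comp measurable_snd)
    exact h3 (measurableSet_singleton true)
  have hat' : ∀ m n, BP (fun y : X × (BinStr × BinStr) => y.2.2 m n = true) := fun m n => by
    have h2' : Measurable (fun q : BinStr => q m n) :=
      (measurable_pi_apply n).comp (measurable_pi_apply m)
    have h3 : Measurable (fun y : X × (BinStr × BinStr) => y.2.2 m n) :=
      h2'.comp (measurable_snd.comp measurable_snd)
    exact h3 (measurableSet_singleton true)
  refine BP.and ?_ (BP.and ?_ (BP.and ?_ ?_))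
  · have h1 : Measurable (fun y : X × (BinStr × BinStr) => (y.1, y.2.1)) :=
      measurable_fst.prodMk (measurable_fst.comp measurable_snd)
    exact h1 (scott hm x0 (eqv col))
  · exact BP.all fun m => BP.all fun n => (hat' m n).imp ((hat m m).and (hat n n))
  · exact BP.all fun m => BP.all fun m' => BP.all fun n => BP.all fun n' =>
      (hat m m').imp ((hat n n').imp ((hat' m n).iff (hat' m' n')))
  · have h1 : Measurable (fun y : X × (BinStr × BinStr) => y.2.2) :=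
      measurable_snd.comp measurable_snd
    exact h1 bp_isGraph

/-- **Faithful completeness of the expansions of a fixed structure.** -/
theorem faithful_exp (hm : ∀ n l, Measurable (fun x : X => enc x n l)) {K0 : BinStr → Prop}
    (hF : Faithful BIso K0) (hK0 : ∀ x, K0 x → IsGraph x) (hcol : ∀ n, ∃ m, col m = some n)
    (hlift : ∀ ρ : Equiv.Perm ℕ, ∃ g, IsI enc g x0 x0 ∧ ∀ m, col (g m) = (col m).map ρ) :
    Faithful (EI enc) (Kx enc x0) := by
  classical
  have hinf : ∀ y : X × (BinStr × BinStr), Wd enc x0 col y → ∀ N, ∃ u, N ≤ u ∧ Rp y u := by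
    intro y hy
    obtain ⟨σ, -, h⟩ := hy.lb hcol
    exact h.inf
  have hbr : ∀ u, BP (fun y : X × (BinStr × BinStr) => Rp y u) := by
    have hat : ∀ m n, BP (fun y : X × (BinStr × BinStr) => y.2.1 m n = true) := fun m n => by
      have h2' : Measurable (fun q : BinStr => q m n) :=
        (measurable_pi_apply n).comp (measurable_pi_apply m)
      have h3 : Measurable (fun y : X × (BinStr × BinStr) => y.2.1 m n) :=
        h2'.comp (measurable_fst.comp measurable_snd)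
      exact h3 (measurableSet_singleton true)
    exact fun u => (hat u u).and (BP.all fun v => (BP.const (v < u)).imp (hat v u).not)
  have hbR : ∀ u v, BP (fun y : X × (BinStr × BinStr) => Rr y u v) := fun m n => by
    have h2' : Measurable (fun q : BinStr => q m n) :=
      (measurable_pi_apply n).comp (measurable_pi_apply m)
    have h3 : Measurable (fun y : X × (BinStr × BinStr) => y.2.2 m n) :=
      h2'.comp (measurable_snd.comp measurable_snd)
    exact h3 (measurableSet_singleton true)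
  refine faithful_interp (W := Wd enc x0 col) (δ := dc Rp Rr) hF (fun y z h => h.symm)
    (bp_Wd hm) (measurable_dc hbr hbR) (fun y z h => Wd.equi h) ?_ ?_ (fun y hy => ?_)
  · intro y z hy hz
    rw [dc_iso (hinf y hy) (hinf z hz)]
    refine ⟨?_, back' hcol hlift hy hz⟩
    rintro ⟨σ, -, h⟩
    obtain ⟨_, -, ly⟩ := hy.lb hcol
    obtain ⟨_, -, lz⟩ := hz.lb hcol
    exact forth' ly lz h
  · intro x hx
    refine ⟨cdx x0 col x, cdx_wd x (hK0 x hx), ?_⟩
    have hw : Wd enc x0 col (cdx x0 col x) := cdx_wd x (hK0 x hx)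
    have hi := hinf _ hw
    have lb : Lb col (cdx x0 col x) := by
      refine ⟨hcol, fun m n => eqv_iff, fun m n h => ?_, fun m m' n n' h1 h2 => ?_⟩
      · obtain ⟨p, q, h1, h2, -⟩ := cdx_iff.1 h
        rw [h1, h2]
        exact ⟨Option.some_ne_none p, Option.some_ne_none q⟩
      · rw [Bool.eq_iff_iff, cdx_iff, cdx_iff, h1, h2]
    obtain ⟨π, hπ⟩ := equiv_of_rel
      (fun (n : ℕ) (u : {u // Rp (cdx x0 col x) u}) => col u = some n)
      (fun n => by
        obtain ⟨w, hw⟩ := hcol n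
        obtain ⟨u, hu, huw⟩ := lb.ex (m := w) (by rw [hw]; exact Option.some_ne_none n)
        exact ⟨⟨u, hu⟩, huw.trans hw⟩)
      (fun u => Option.ne_none_iff_exists'.1 (u.2.ne lb))
      (fun n u u' h1 h2 => Subtype.ext (lb.uniq u.2 u'.2 (h1.trans h2.symm)))
      (fun m n u h1 h2 => Option.some_injective _ (h1.symm.trans h2))
    refine dc_iso' hi π fun m n => ?_
    show x m n = true ↔ (cdx x0 col x).2.2 (π m) (π n) = true
    rw [cdx_iff]
    constructor
    · exact fun h => ⟨m, n, hπ m, hπ n, h⟩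
    · rintro ⟨p, q, h1, h2, h3⟩
      rw [hπ] at h1 h2
      rw [Option.some_injective _ h1, Option.some_injective _ h2]
      exact h3
  · obtain ⟨⟨σ, h1, h2⟩, -, -, h5⟩ := hy
    refine ⟨⟨σ, h1⟩, fun m n h => ?_, h5⟩
    have e : ∀ m, σ (σ⁻¹ m) = m := fun m => σ.apply_symm_apply m
    have h3 := h2 (σ⁻¹ m) (σ⁻¹ n)
    have h4 := h2 (σ⁻¹ n) (σ⁻¹ m)
    rw [e, e] at h3 h4
    rw [h4]
    rw [h3] at h
    obtain ⟨h6, h7⟩ := eqv_iff.1 h
    exact eqv_iff.2 ⟨h6.symm, h6 ▸ h7⟩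

end abs

end Pool.Agent.H669.LO
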