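import Mathlib

set_option autoImplicit false

/-!
Generic colourings.  Let a closed permutation group `G` on `ℕ` act continuously on a countable
infinite set such that the algebraic closure of every finite set is finite.  Then the set has a
colouring with colours in `ℕ` such that every permutation of the colours is induced by an element
of `G`.
-/

namespace Pool.Agent.H669.LO

open Set
open scoped Pointwise

/-- A sequence with given properties. -/
theorem fuse {P : Type} (le : P → P → Prop) (D : ℕ → P → Prop) (p : P)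
    (h : ∀ n q, ∃ q', le q q' ∧ D n q') :
    ∃ s : ℕ → P, s 0 = p ∧ (∀ n, le (s n) (s (n + 1))) ∧ ∀ n, D n (s (n + 1)) := by
  choose nx h1 h2 using h
  exact ⟨fun n => Nat.rec p (fun n q => nx n q) n, rfl, fun n => h1 n _, fun n => h2 n _⟩

/-- P. M. Neumann's lemma. -/
theorem neumann {H Ω : Type} [Group H] [MulAction H Ω] (N S : Finset Ω)
    (hN : ∀ ω ∈ N, (MulAction.orbit H ω).Infinite) : ∃ h : H, ∀ ω ∈ N, h • ω ∉ S := by
  classical
  by_contra hcon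
  push Not at hcon
  let P : Finset (Ω × Ω) := (N ×ˢ S).filter fun i => ∃ h : H, h • i.1 = i.2
  have hP : ∀ i : Ω × Ω, ∃ h : H, i ∈ P → h • i.1 = i.2 := by
    intro i
    by_cases hi : i ∈ P
    · obtain ⟨h, hh⟩ := (Finset.mem_filter.1 hi).2
      exact ⟨h, fun _ => hh⟩
    · exact ⟨1, fun h => absurd h hi⟩
  choose g hg using hP
  have hcov : ⋃ i ∈ P, (g i) • ((MulAction.stabilizer H i.1 : Subgroup H) : Set H) = Set.univ := by
    apply Set.eq_univ_of_forall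
    intro h
    obtain ⟨ω, h1, h2⟩ := hcon h
    have hi : (ω, h • ω) ∈ P := Finset.mem_filter.2 ⟨Finset.mem_product.2 ⟨h1, h2⟩, h, rfl⟩
    refine Set.mem_iUnion₂.2 ⟨(ω, h • ω), hi, ?_⟩
    rw [Set.mem_smul_set_iff_inv_smul_mem]
    show (g (ω, h • ω))⁻¹ • h ∈ MulAction.stabilizer H ω
    rw [MulAction.mem_stabilizer_iff, smul_eq_mul, mul_smul, inv_smul_eq_iff]
    exact (hg _ hi).symm
  obtain ⟨k, hk, hfi⟩ := Subgroup.exists_finiteIndex_of_leftCoset_cover hcov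
  have h1 : k.1 ∈ N := (Finset.mem_product.1 (Finset.mem_filter.1 hk).1).1
  apply hN _ h1
  have : Finite (H ⧸ MulAction.stabilizer H k.1) := Subgroup.finite_quotient_of_finiteIndex
  have := Finite.of_equiv _ (MulAction.orbitEquivQuotientStabilizer H k.1).symm
  exact Set.toFinite _

section

variable {Ω : Type} {G : Subgroup (Equiv.Perm ℕ)} [MulAction G Ω]

/-- The pointwise stabilizer of a finite set of natural numbers. -/
def Fx (G : Subgroup (Equiv.Perm ℕ)) (F : Finset ℕ) : Subgroup G where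
  carrier := {g | ∀ x ∈ F, g.1 x = x}
  mul_mem' := by
    intro g h hg hh x hx
    show g.1 (h.1 x) = x
    rw [hh x hx, hg x hx]
  one_mem' := fun x _ => rfl
  inv_mem' := by
    intro g hg x hx
    show g.1⁻¹ x = x
    rw [Equiv.Perm.inv_eq_iff_eq]
    exact (hg x hx).symm

theorem mem_Fx {F : Finset ℕ} {g : G} : g ∈ Fx G F ↔ ∀ x ∈ F, g.1 x = x := Iff.rfl

/-- The algebraic closure. -/
def acl (Ω : Type) [MulAction G Ω] (F : Finset ℕ) : Set Ω :=
  {ω | (MulAction.orbit (Fx G F) ω).Finite}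

/-- The elements of the pointwise stabilizer of `F` that fix the algebraic closure of `F`. -/
def Hx (Ω : Type) [MulAction G Ω] (F : Finset ℕ) : Subgroup G where
  carrier := {g | g ∈ Fx G F ∧ ∀ ω ∈ acl (G := G) Ω F, g • ω = ω}
  mul_mem' := by
    intro g h hg hh
    refine ⟨(Fx G F).mul_mem hg.1 hh.1, fun ω hω => ?_⟩
    rw [mul_smul, hh.2 ω hω, hg.2 ω hω]
  one_mem' := ⟨(Fx G F).one_mem, fun ω _ => one_smul _ _⟩
  inv_mem' := by
    intro g hg
    refine ⟨(Fx G F).inv_mem hg.1, fun ω hω => ?_⟩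
    rw [inv_smul_eq_iff]
    exact (hg.2 ω hω).symm

theorem acl_mono {F F' : Finset ℕ} (h : F ⊆ F') :
    acl (G := G) Ω F ⊆ acl (G := G) Ω F' := by
  intro ω hω
  refine Set.Finite.subset hω ?_
  rintro _ ⟨g, rfl⟩
  exact ⟨⟨g.1, fun x hx => g.2 x (h hx)⟩, rfl⟩

theorem smul_mem_acl {F : Finset ℕ} {ω : Ω} (hω : ω ∈ acl (G := G) Ω F) {g : G}
    (hg : g ∈ Fx G F) : g • ω ∈ acl (G := G) Ω F := by
  refine Set.Finite.subset hω ?_
  rintro _ ⟨h, rfl⟩
  refine ⟨h * ⟨g, hg⟩, ?_⟩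
  show (h.1 * g) • ω = h.1 • g • ω
  rw [mul_smul]

/-- The image of a finite set. -/
def img (g : Equiv.Perm ℕ) (F : Finset ℕ) : Finset ℕ := F.map g.toEmbedding

theorem mem_img {g : Equiv.Perm ℕ} {F : Finset ℕ} {x : ℕ} : x ∈ img g F ↔ ∃ y ∈ F, g y = x := by
  unfold img
  rw [Finset.mem_map]
  rfl

theorem smul_mem_acl_img {F : Finset ℕ} {ω : Ω} (g : G) (hω : ω ∈ acl (G := G) Ω F) :
    g • ω ∈ acl (G := G) Ω (img g.1 F) := by
  have h1 : (MulAction.orbit (Fx G (img g.1 F)) (g • ω)) ⊆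
      (fun ω' => g • ω') '' (MulAction.orbit (Fx G F) ω) := by
    rintro _ ⟨h, rfl⟩
    refine ⟨(g⁻¹ * h.1 * g) • ω, ⟨⟨g⁻¹ * h.1 * g, fun x hx => ?_⟩, rfl⟩, ?_⟩
    · show g.1⁻¹ (h.1.1 (g.1 x)) = x
      rw [h.2 (g.1 x) (mem_img.2 ⟨x, hx, rfl⟩)]
      simp
    · show g • (g⁻¹ * h.1 * g) • ω = h.1 • g • ω
      rw [mul_smul, mul_smul, smul_inv_smul]
  exact Set.Finite.subset (Set.Finite.image _ hω) h1

theorem smul_mem_acl_img_iff {F : Finset ℕ} {ω : Ω} (g : G) :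
    g • ω ∈ acl (G := G) Ω (img g.1 F) ↔ ω ∈ acl (G := G) Ω F := by
  refine ⟨fun h => ?_, smul_mem_acl_img g⟩
  have h1 := smul_mem_acl_img g⁻¹ h
  rw [inv_smul_smul] at h1
  have h2 : img (g⁻¹ : G).1 (img g.1 F) = F := by
    ext x
    rw [mem_img]
    constructor
    · rintro ⟨y, hy, rfl⟩
      obtain ⟨z, hz, rfl⟩ := mem_img.1 hy
      have : (g⁻¹ : G).1 (g.1 z) = z := by simp
      rw [this]
      exact hz
    · intro hx
      exact ⟨g.1 x, mem_img.2 ⟨x, hx, rfl⟩, by simp⟩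
  rw [h2] at h1
  exact h1

/-- Points outside the algebraic closure have infinite orbits also under the smaller group. -/
theorem orbit_infinite (hacl : ∀ F : Finset ℕ, (acl (G := G) Ω F).Finite) {F : Finset ℕ} {ω : Ω}
    (hω : ω ∉ acl (G := G) Ω F) : (MulAction.orbit (Hx (G := G) Ω F) ω).Infinite := by
  classical
  intro hfin
  apply hω
  have : Finite (acl (G := G) Ω F) := (hacl F).to_subtype
  let φ : Fx G F → (acl (G := G) Ω F → acl (G := G) Ω F) := fun g ω' =>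
    ⟨g.1 • ω'.1, smul_mem_acl ω'.2 g.2⟩
  have hr : (Set.range φ).Finite := Set.toFinite _
  have hch : ∀ t : (acl (G := G) Ω F → acl (G := G) Ω F), ∃ g : Fx G F, t ∈ Set.range φ → φ g = t := by
    intro t
    by_cases ht : t ∈ Set.range φ
    · obtain ⟨g, hg⟩ := ht
      exact ⟨g, fun _ => hg⟩
    · exact ⟨1, fun h => absurd h ht⟩
  choose gt hgt using hch
  have hsub : MulAction.orbit (Fx G F) ω ⊆
      ⋃ t ∈ Set.range φ, (fun ω' => (gt t).1 • ω') '' (MulAction.orbit (Hx (G := G) Ω F) ω) := by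
    rintro _ ⟨g, rfl⟩
    refine Set.mem_iUnion₂.2 ⟨φ g, ⟨g, rfl⟩, ?_⟩
    have h1 := hgt (φ g) ⟨g, rfl⟩
    have h2 : ((gt (φ g))⁻¹ * g : Fx G F).1 ∈ Hx (G := G) Ω F := by
      refine ⟨((gt (φ g))⁻¹ * g : Fx G F).2, fun ω' hω' => ?_⟩
      have h3 := congrArg Subtype.val (congrFun h1 ⟨ω', hω'⟩)
      have h4 : (gt (φ g)).1 • ω' = g.1 • ω' := h3
      show ((gt (φ g)).1⁻¹ * g.1) • ω' = ω'
      rw [mul_smul, inv_smul_eq_iff]
      exact h4.symm
    refine ⟨((gt (φ g))⁻¹ * g : Fx G F).1 • ω, ⟨⟨_, h2⟩, rfl⟩, ?_⟩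
    show (gt (φ g)).1 • ((gt (φ g)).1⁻¹ * g.1) • ω = g.1 • ω
    rw [mul_smul, smul_inv_smul]
  exact Set.Finite.subset (hr.biUnion fun t _ => Set.Finite.image _ hfin) hsub

/-- Finite partial colourings. -/
def Fun (p : Finset (Ω × ℕ)) : Prop := ∀ u ∈ p, ∀ v ∈ p, u.1 = v.1 → u.2 = v.2

/-- Existence of generic colourings. -/
theorem exists_colouring [Countable Ω] (hacl : ∀ F : Finset ℕ, (acl (G := G) Ω F).Finite) :
    ∃ c : Ω → ℕ, ∀ (F : Finset ℕ) (r : Finset (Ω × ℕ)), Fun r →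
      (∀ u ∈ r, u.1 ∉ acl (G := G) Ω F) → ∃ h ∈ Hx (G := G) Ω F, ∀ u ∈ r, c (h • u.1) = u.2 := by
  classical
  obtain ⟨e, he⟩ := exists_surjective_nat (Finset ℕ × Finset (Ω × ℕ))
  let D : ℕ → {p : Finset (Ω × ℕ) // Fun p} → Prop := fun n p =>
    Fun (e n).2 → (∀ u ∈ (e n).2, u.1 ∉ acl (G := G) Ω (e n).1) →
      ∃ h ∈ Hx (G := G) Ω (e n).1, ∀ u ∈ (e n).2, (h • u.1, u.2) ∈ p.1
  have hstep : ∀ (n : ℕ) (q : {p : Finset (Ω × ℕ) // Fun p}),
      ∃ q' : {p : Finset (Ω × ℕ) // Fun p}, q.1 ⊆ q'.1 ∧ D n q' := by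
    intro n q
    by_cases hD : Fun (e n).2 ∧ ∀ u ∈ (e n).2, u.1 ∉ acl (G := G) Ω (e n).1
    · obtain ⟨h1, h2⟩ := hD
      obtain ⟨h, hh⟩ := neumann (H := Hx (G := G) Ω (e n).1) ((e n).2.image Prod.fst)
        (q.1.image Prod.fst) (by
          intro ω hω
          obtain ⟨u, hu, rfl⟩ := Finset.mem_image.1 hω
          exact orbit_infinite hacl (h2 u hu))
      have hdis : ∀ u ∈ (e n).2, ∀ v ∈ q.1, h.1 • u.1 ≠ v.1 := by
        intro u hu v hv he
        apply hh u.1 (Finset.mem_image.2 ⟨u, hu, rfl⟩)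
        rw [Finset.mem_image]
        exact ⟨v, hv, he.symm⟩
      refine ⟨⟨q.1 ∪ (e n).2.image (fun u => (h.1 • u.1, u.2)), ?_⟩, Finset.subset_union_left,
        fun _ _ => ⟨h.1, h.2, fun u hu =>
          Finset.mem_union_right _ (Finset.mem_image.2 ⟨u, hu, rfl⟩)⟩⟩
      intro u hu v hv huv
      rcases Finset.mem_union.1 hu with hu | hu <;> rcases Finset.mem_union.1 hv with hv | hv
      · exact q.2 u hu v hv huv
      · obtain ⟨v', hv', rfl⟩ := Finset.mem_image.1 hv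
        exact absurd huv.symm (hdis v' hv' u hu)
      · obtain ⟨u', hu', rfl⟩ := Finset.mem_image.1 hu
        exact absurd huv (hdis u' hu' v hv)
      · obtain ⟨u', hu', rfl⟩ := Finset.mem_image.1 hu
        obtain ⟨v', hv', rfl⟩ := Finset.mem_image.1 hv
        exact h1 u' hu' v' hv' (MulAction.injective _ huv)
    · exact ⟨q, Finset.Subset.refl _, fun h1 h2 => absurd ⟨h1, h2⟩ hD⟩
  obtain ⟨s, -, hs1, hs2⟩ := fuse (fun p q : {p : Finset (Ω × ℕ) // Fun p} => p.1 ⊆ q.1) D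
    ⟨∅, by intro u hu; simp at hu⟩ hstep
  have hmono : ∀ m n, m ≤ n → (s m).1 ⊆ (s n).1 := by
    intro m n hmn
    induction hmn with
    | refl => exact Finset.Subset.refl _
    | step _ ih => exact ih.trans (hs1 _)
  let c : Ω → ℕ := fun ω => if h : ∃ k n, (ω, k) ∈ (s n).1 then h.choose else 0
  have hc : ∀ ω k n, (ω, k) ∈ (s n).1 → c ω = k := by
    intro ω k n hk
    have hex : ∃ k n, (ω, k) ∈ (s n).1 := ⟨k, n, hk⟩
    have h1 : c ω = hex.choose := dif_pos hex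
    obtain ⟨m, hm⟩ := hex.choose_spec
    rw [h1]
    exact (s (max m n)).2 _ (hmono _ _ (le_max_left m n) hm) _ (hmono _ _ (le_max_right m n) hk) rfl
  refine ⟨c, fun F r hr1 hr2 => ?_⟩
  obtain ⟨n, hn⟩ := he (F, r)
  have h3 := hs2 n
  simp only [D, hn] at h3
  obtain ⟨h, h4, h5⟩ := h3 hr1 hr2
  exact ⟨h, h4, fun u hu => hc _ _ _ (h5 u hu)⟩

/-- `g` is compatible with `π` on the algebraic closure of `F`. -/
def Val (c : Ω → ℕ) (π : Equiv.Perm ℕ) (g : G) (F : Finset ℕ) : Prop :=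
  ∀ ω ∈ acl (G := G) Ω F, c (g • ω) = π (c ω)

theorem Val.inv {c : Ω → ℕ} {π : Equiv.Perm ℕ} {g : G} {F : Finset ℕ} (h : Val c π g F) :
    Val c π⁻¹ g⁻¹ (img g.1 F) := by
  intro ω hω
  have h1 : g⁻¹ • ω ∈ acl (G := G) Ω F := by
    have := smul_mem_acl_img_iff (F := F) (ω := g⁻¹ • ω) g
    rw [smul_inv_smul] at this
    exact this.1 hω
  have h2 := h _ h1
  rw [smul_inv_smul] at h2
  rw [h2]
  simp

theorem img_inv (g : Equiv.Perm ℕ) (F : Finset ℕ) : img g⁻¹ (img g F) = F := by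
  ext x
  rw [mem_img]
  constructor
  · rintro ⟨y, hy, rfl⟩
    obtain ⟨z, hz, rfl⟩ := mem_img.1 hy
    simpa using hz
  · intro hx
    exact ⟨g x, mem_img.2 ⟨x, hx, rfl⟩, by simp⟩

variable (hacl : ∀ F : Finset ℕ, (acl (G := G) Ω F).Finite) {c : Ω → ℕ}
  (hc : ∀ (F : Finset ℕ) (r : Finset (Ω × ℕ)), Fun r →
      (∀ u ∈ r, u.1 ∉ acl (G := G) Ω F) → ∃ h ∈ Hx (G := G) Ω F, ∀ u ∈ r, c (h • u.1) = u.2)

include hacl hc in
theorem Val.ext {π : Equiv.Perm ℕ} {g : G} {F F' : Finset ℕ} (h : Val c π g F) (hF : F ⊆ F') :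
    ∃ g' : G, Val c π g' F' ∧ ∀ x ∈ F, g'.1 x = g.1 x := by
  classical
  let N : Finset Ω := (hacl F').toFinset.filter fun ω => ω ∉ acl (G := G) Ω F
  have hN : ∀ ω ∈ N, ω ∈ acl (G := G) Ω F' ∧ ω ∉ acl (G := G) Ω F := by
    intro ω hω
    have := Finset.mem_filter.1 hω
    exact ⟨(hacl F').mem_toFinset.1 this.1, this.2⟩
  obtain ⟨k, hk1, hk2⟩ := hc (img g.1 F) (N.image fun ω => (g • ω, π (c ω))) (by
      intro u hu v hv huv
      obtain ⟨ω, hω, rfl⟩ := Finset.mem_image.1 hu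
      obtain ⟨ω', hω', rfl⟩ := Finset.mem_image.1 hv
      have h1 : ω = ω' := MulAction.injective g huv
      rw [h1]) (by
      intro u hu
      obtain ⟨ω, hω, rfl⟩ := Finset.mem_image.1 hu
      intro h1
      exact (hN ω hω).2 ((smul_mem_acl_img_iff g).1 h1))
  refine ⟨k * g, fun ω hω => ?_, fun x hx => ?_⟩
  · by_cases h1 : ω ∈ acl (G := G) Ω F
    · rw [mul_smul, hk1.2 _ (smul_mem_acl_img g h1)]
      exact h ω h1
    · have h2 : ω ∈ N := Finset.mem_filter.2 ⟨(hacl F').mem_toFinset.2 hω, h1⟩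
      have := hk2 _ (Finset.mem_image.2 ⟨ω, h2, rfl⟩)
      rw [mul_smul]
      exact this
  · show k.1 (g.1 x) = g.1 x
    exact hk1.1 _ (mem_img.2 ⟨x, hx, rfl⟩)

include hacl hc in
/-- Every permutation of the colours is induced by an element of the group. -/
theorem lift_perm (hcl : ∀ σ : Equiv.Perm ℕ,
      (∀ F : Finset ℕ, ∃ g : G, ∀ x ∈ F, g.1 x = σ x) → σ ∈ G)
    (hct : ∀ ω : Ω, ∃ F : Finset ℕ, ∀ g ∈ Fx G F, g • ω = ω) (π : Equiv.Perm ℕ)
    (h0 : Val c π (1 : G) ∅) :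
    ∃ g : G, ∀ ω : Ω, c (g • ω) = π (c ω) := by
  classical
  let P : Type := {u : G × Finset ℕ // Val c π u.1 u.2}
  let le : P → P → Prop := fun u v => u.1.2 ⊆ v.1.2 ∧ ∀ x ∈ u.1.2, v.1.1.1 x = u.1.1.1 x
  have hletr : ∀ u v w : P, le u v → le v w → le u w := by
    intro u v w h1 h2
    refine ⟨h1.1.trans h2.1, fun x hx => ?_⟩
    rw [h2.2 x (h1.1 hx), h1.2 x hx]
  have hstep : ∀ (n : ℕ) (q : P), ∃ q' : P, le q q' ∧ (n ∈ q'.1.2 ∧ n ∈ img q'.1.1.1 q'.1.2) := by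
    intro n q
    obtain ⟨g', h1, h2⟩ := Val.ext hacl hc q.2 (Finset.subset_insert n q.1.2)
    obtain ⟨u, h3, h4⟩ := Val.ext hacl hc h1.inv
      (Finset.subset_insert n (img g'.1 (insert n q.1.2)))
    have h5 := h3.inv
    rw [inv_inv] at h5
    have hu : ∀ x ∈ insert n q.1.2, (u⁻¹ : G).1 x = g'.1 x := by
      intro x hx
      have := h4 (g'.1 x) (mem_img.2 ⟨x, hx, rfl⟩)
      have h6 : (g'⁻¹ : G).1 (g'.1 x) = x := by simp
      rw [h6] at this
      show u.1⁻¹ x = g'.1 x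
      rw [Equiv.Perm.inv_eq_iff_eq]
      exact this.symm
    have hsub : insert n q.1.2 ⊆ img u.1 (insert n (img g'.1 (insert n q.1.2))) := by
      intro x hx
      refine mem_img.2 ⟨g'.1 x, Finset.mem_insert_of_mem (mem_img.2 ⟨x, hx, rfl⟩), ?_⟩
      have := h4 (g'.1 x) (mem_img.2 ⟨x, hx, rfl⟩)
      rw [this]
      simp
    refine ⟨⟨(u⁻¹, img u.1 (insert n (img g'.1 (insert n q.1.2)))), h5⟩,
      ⟨(Finset.subset_insert _ _).trans hsub, fun x hx => ?_⟩,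
      hsub (Finset.mem_insert_self _ _), ?_⟩
    · show (u⁻¹ : G).1 x = q.1.1.1 x
      rw [hu x (Finset.mem_insert_of_mem hx)]
      exact h2 x hx
    · have := img_inv u.1 (insert n (img g'.1 (insert n q.1.2)))
      show n ∈ img (u⁻¹ : G).1 _
      have h7 : (u⁻¹ : G).1 = u.1⁻¹ := rfl
      rw [h7, this]
      exact Finset.mem_insert_self _ _
  obtain ⟨s, -, hs1, hs2⟩ := fuse le (fun n q => n ∈ q.1.2 ∧ n ∈ img q.1.1.1 q.1.2)
    ⟨(1, ∅), h0⟩ hstep
  have hmono : ∀ m n, m ≤ n → le (s m) (s n) := by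
    intro m n hmn
    induction hmn with
    | refl => exact ⟨Finset.Subset.refl _, fun _ _ => rfl⟩
    | step _ ih => exact hletr _ _ _ ih (hs1 _)
  -- the limit
  let f : ℕ → ℕ := fun x => (s (x + 1)).1.1.1 x
  have hf : ∀ n x, x ∈ (s n).1.2 → f x = (s n).1.1.1 x := by
    intro n x hx
    have h1 := (hmono _ _ (le_max_left n (x + 1))).2 x hx
    have h2 := (hmono _ _ (le_max_right n (x + 1))).2 x (hs2 x).1
    rw [← h1]
    exact h2.symm
  have hinj : Function.Injective f := by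
    intro x y hxy
    have hx := (hmono _ _ (le_max_left (x + 1) (y + 1))).1 (hs2 x).1
    have hy := (hmono _ _ (le_max_right (x + 1) (y + 1))).1 (hs2 y).1
    rw [hf _ x hx, hf _ y hy] at hxy
    exact (Equiv.injective _) hxy
  have hsur : Function.Surjective f := by
    intro y
    obtain ⟨x, hx, hxy⟩ := mem_img.1 (hs2 y).2
    exact ⟨x, by rw [hf _ x hx, hxy]⟩
  let σ : Equiv.Perm ℕ := Equiv.ofBijective f ⟨hinj, hsur⟩
  have hσ : ∀ x, σ x = f x := fun x => rfl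
  have hFsub : ∀ F : Finset ℕ, ∃ n, F ⊆ (s n).1.2 := by
    intro F
    refine ⟨F.sup id + 1, fun x hx => ?_⟩
    have h1 : x + 1 ≤ F.sup id + 1 := Nat.succ_le_succ (Finset.le_sup (f := id) hx)
    exact (hmono _ _ h1).1 (hs2 x).1
  have hσG : σ ∈ G := by
    apply hcl
    intro F
    obtain ⟨n, hn⟩ := hFsub F
    exact ⟨(s n).1.1, fun x hx => by rw [hσ, hf n x (hn hx)]⟩
  refine ⟨⟨σ, hσG⟩, fun ω => ?_⟩
  obtain ⟨F, hF⟩ := hct ω
  obtain ⟨n, hn⟩ := hFsub F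
  have h1 : ω ∈ acl (G := G) Ω (s n).1.2 := by
    have : MulAction.orbit (Fx G (s n).1.2) ω ⊆ {ω} := by
      rintro _ ⟨g, rfl⟩
      exact hF g.1 fun x hx => g.2 x (hn hx)
    exact (Set.finite_singleton ω).subset this
  have h2 : ((s n).1.1⁻¹ * ⟨σ, hσG⟩ : G) ∈ Fx G F := by
    intro x hx
    show (s n).1.1.1⁻¹ (σ x) = x
    rw [Equiv.Perm.inv_eq_iff_eq, hσ, hf n x (hn hx)]
  have h3 := hF _ h2
  rw [mul_smul, inv_smul_eq_iff] at h3
  rw [h3]
  exact (s n).2 ω h1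

end

end Pool.Agent.H669.LO
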