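import Pool.Agent.H669.LO.Shuf

set_option autoImplicit false
set_option linter.unusedSectionVars false
set_option linter.style.haveILetI false

/-!
An orbit which contains a copy of the rational numbers yields a convex subgroup whose classes have
trivial definable closures.
-/

namespace Pool.Agent.H669.LO

open Set

variable {L : Type} [LinearOrder L] {G : Subgroup (Equiv.Perm L)} {x0 : L}

/-- The class of `H` contains a copy of the rational numbers. -/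
def Rt (x0 : L) (H : Subgroup G) : Prop :=
  ∃ e : ℚ → L, StrictMono e ∧ ∀ q, ∃ h ∈ H, h.1 x0 = e q

theorem shrink {e : ℚ → L} (he : StrictMono e) {p q : ℚ} (hpq : p < q) :
    ∃ e' : ℚ → L, StrictMono e' ∧ ∀ r, ∃ s, p < s ∧ s < q ∧ e' r = e s := by
  haveI : Nontrivial (Set.Ioo p q) := by
    obtain ⟨a, h1, h2⟩ := exists_between hpq
    obtain ⟨b, h3, h4⟩ := exists_between h2
    refine ⟨⟨⟨a, h1, h2⟩, ⟨b, h1.trans h3, h4⟩, ?_⟩⟩
    intro h
    exact h3.ne (congrArg Subtype.val h)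
  obtain ⟨φ⟩ := Order.embedding_from_countable_to_dense ℚ (Set.Ioo p q)
  exact ⟨fun r => e (φ r).1, fun r s hrs => he (φ.strictMono hrs),
    fun r => ⟨(φ r).1, (φ r).2.1, (φ r).2.2, rfl⟩⟩

theorem Cvx.rt_of_btw (hG : Full G) {H : Subgroup G} (hH : Cvx x0 H) {e : ℚ → L}
    (he : StrictMono e) (g : ℚ → G) (hg : ∀ q, (g q).1 x0 = e q) {p q : ℚ} (hpq : p < q)
    (h : (g p)⁻¹ * g q ∈ H) : Rt x0 H := by
  obtain ⟨e', h1, h2⟩ := shrink he hpq
  refine ⟨fun r => ((g p)⁻¹).1 (e' r), fun r s hrs => (hG.lt _).2 (h1 hrs), fun r => ?_⟩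
  obtain ⟨s, h3, h4, h5⟩ := h2 r
  refine ⟨(g p)⁻¹ * g s, hH.btw hG h ?_ ?_, ?_⟩
  · rw [hg, hg]
    exact (he h3).le
  · rw [hg, hg]
    exact (he h4).le
  · show ((g p)⁻¹ * g s).1 x0 = ((g p)⁻¹).1 (e' r)
    rw [ap_mul, hg, h5]

theorem pow_le (hG : Full G) {s : G} (hs : x0 < s.1 x0) (k : ℕ) : x0 ≤ (s ^ k).1 x0 := by
  induction k with
  | zero => exact le_rfl
  | succ k ih =>
    refine hs.le.trans ?_
    rw [pow_succ', ap_mul, hG.le]
    exact ih

theorem pow_lt (hG : Full G) {s : G} (hs : x0 < s.1 x0) (k : ℕ) :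
    (s ^ k).1 x0 < (s ^ (k + 1)).1 x0 := by
  rw [pow_succ, ap_mul, hG.lt]
  exact hs

theorem Cvx.arch (hG : Full G) {H : Subgroup G} (hH : Cvx x0 H) {n : G}
    (hn : n ∈ Subgroup.normalizer (H : Set G)) {s : G} (hs : s ∉ H) (hs0 : x0 < s.1 x0) :
    ∃ k : ℕ, n.1 x0 < (s ^ k).1 x0 := by
  by_contra hcon
  push Not at hcon
  have hK : n.1 x0 ∉ hull s x0 := by
    rintro ⟨-, j, -, h⟩
    obtain ⟨k, rfl | rfl⟩ := Int.eq_nat_or_neg j
    · rw [zpow_natCast] at h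
      exact absurd (hcon (k + 1)) (not_le.2 (h.trans_lt (pow_lt hG hs0 k)))
    · have h1 : (s ^ (-(k : ℤ))).1 x0 ≤ x0 := by
        rw [← hG.le (s ^ k), ← ap_mul, zpow_neg, zpow_natCast, mul_inv_cancel]
        exact pow_le hG hs0 k
      have h2 := hcon 1
      rw [pow_one] at h2
      exact absurd (h.trans h1) (not_le.2 (hs0.trans_le h2))
  obtain ⟨w, hw1, hw2⟩ := hG.glue s _ (hull_conv s x0) (hull_inv hG s x0)
  have h1 : n⁻¹ * w * n ∈ H := by
    rw [mul_assoc]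
    refine hH.same ?_
    rw [ap_mul, hw2 _ hK]
  have h2 : w ∈ H := (nrm_conj hn).1 h1
  have h3 := H.mul_mem h2 (hH.same (hw1 _ (mem_hull s x0)))
  rw [mul_inv_cancel_left] at h3
  exact hs h3

theorem Cvx.disc (hG : Full G) {H N : Subgroup G} (hH : Cvx x0 H) {s : G} (hsN : s ∈ N)
    (hd : ∀ m ∈ N, x0 ≤ m.1 x0 → m.1 x0 ≤ s.1 x0 → m ∈ H ∨ s⁻¹ * m ∈ H) (k : ℕ) :
    ∀ m ∈ N, x0 ≤ m.1 x0 → m.1 x0 ≤ (s ^ k).1 x0 → ∃ j ≤ k, (s ^ j)⁻¹ * m ∈ H := by
  induction k with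
  | zero =>
    intro m hm h1 h2
    refine ⟨0, le_rfl, ?_⟩
    rw [pow_zero, inv_one, one_mul]
    exact hH.stab (le_antisymm h2 h1)
  | succ k ih =>
    intro m hm h1 h2
    rcases le_or_gt (m.1 x0) ((s ^ k).1 x0) with h | h
    · obtain ⟨j, hj, h3⟩ := ih m hm h1 h
      exact ⟨j, hj.trans (Nat.le_succ k), h3⟩
    · have h3 : x0 ≤ ((s ^ k)⁻¹ * m).1 x0 := by
        rw [← hG.le (s ^ k), ap_mul, ap_inv]
        exact h.le
      have h4 : ((s ^ k)⁻¹ * m).1 x0 ≤ s.1 x0 := by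
        rw [← hG.le (s ^ k), ap_mul, ap_inv, ← ap_mul, ← pow_succ]
        exact h2
      rcases hd _ (N.mul_mem (N.inv_mem (N.pow_mem hsN k)) hm) h3 h4 with h5 | h5
      · exact ⟨k, Nat.le_succ k, h5⟩
      · refine ⟨k + 1, le_rfl, ?_⟩
        have e : s⁻¹ * ((s ^ k)⁻¹ * m) = (s ^ (k + 1))⁻¹ * m := by
          rw [pow_succ]
          group
        rwa [e] at h5

/-- Orbits which are not scattered. -/
theorem exists_T (hG : Full G) (hL : Countable L) (e : ℚ → L) (he : StrictMono e)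
    (he' : ∀ q, ∃ g : G, g.1 x0 = e q) :
    ∃ H : Subgroup G, Cvx x0 H ∧ H ≠ ⊤ ∧ ∀ g, (∀ k ∈ H, g⁻¹ * k * g ∈ H) → g ∈ H := by
  classical
  let S : Set (Subgroup G) := {H | Cvx x0 H ∧ ¬ Rt x0 H}
  have h0 : MulAction.stabilizer G x0 ∈ S := by
    refine ⟨fun g h hh h1 h2 => ?_, ?_⟩
    · rw [MulAction.mem_stabilizer_iff] at hh ⊢
      have hh' : h.1 x0 = x0 := hh
      rw [hh'] at h2
      exact le_antisymm h2 h1
    · rintro ⟨e, h1, h2⟩
      obtain ⟨g, hg, hg'⟩ := h2 0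
      obtain ⟨h, hh, hh'⟩ := h2 1
      have k1 : g.1 x0 = x0 := hg
      have k2 : h.1 x0 = x0 := hh
      have := h1 (zero_lt_one : (0 : ℚ) < 1)
      rw [← hg', ← hh', k1, k2] at this
      exact lt_irrefl _ this
  obtain ⟨H, -, hH⟩ := zorn_le_nonempty₀ S (by
    intro c hc hch y hy
    refine ⟨sSup c, ?_, fun z hz => le_sSup hz⟩
    have hmem : ∀ g, g ∈ sSup c ↔ ∃ H ∈ c, g ∈ H := fun g =>
      Subgroup.mem_sSup_of_directedOn ⟨y, hy⟩ hch.directedOn
    refine ⟨fun g h hh h1 h2 => ?_, ?_⟩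
    · obtain ⟨H, hHc, hhH⟩ := (hmem h).1 hh
      exact (hmem g).2 ⟨H, hHc, (hc hHc).1 g h hhH h1 h2⟩
    · rintro ⟨e, h1, h2⟩
      choose g hg1 hg2 using h2
      obtain ⟨H1, k1, k2⟩ := (hmem _).1 (hg1 0)
      obtain ⟨H2, k3, k4⟩ := (hmem _).1 (hg1 1)
      obtain ⟨H3, k5, k6, k7⟩ := hch.directedOn H1 k1 H2 k3
      exact (hc k5).2 ((hc k5).1.rt_of_btw hG h1 g hg2 zero_lt_one
        (H3.mul_mem (H3.inv_mem (k6 k2)) (k7 k4)))) _ h0
  have hcH := hH.prop.1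
  have hnR := hH.prop.2
  refine ⟨H, hcH, fun h => hnR ?_, fun g hg => ?_⟩
  · rw [h]
    exact ⟨e, he, fun q => by
      obtain ⟨g, hg⟩ := he' q
      exact ⟨g, Subgroup.mem_top _, hg⟩⟩
  · have hN := hcH.mem_nrm hG hg
    by_contra hgH
    have hRt : Rt x0 (Subgroup.normalizer (H : Set G)) := by
      by_contra hcon
      have h1 : Subgroup.normalizer (H : Set G) ∈ S := ⟨hcH.nrm hG, hcon⟩
      exact hgH (hH.le_of_ge h1 Subgroup.le_normalizer hN)
    obtain ⟨e, h1, h2⟩ := hRt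
    choose a ha1 ha2 using h2
    have hne : ∀ p q : ℚ, p < q → (a p)⁻¹ * a q ∉ H := fun p q hpq h =>
      hnR (hcH.rt_of_btw hG h1 a ha2 hpq h)
    have ha01 : (a 0)⁻¹ * a 1 ∈ Subgroup.normalizer (H : Set G) :=
      Subgroup.mul_mem _ (Subgroup.inv_mem _ (ha1 0)) (ha1 1)
    have D : Dns x0 H (Subgroup.normalizer (H : Set G)) := by
      refine ⟨hcH, Subgroup.le_normalizer, fun n hn h => nrm_conj hn,
        ⟨(a 0)⁻¹ * a 1, ha01, hne 0 1 zero_lt_one, ?_⟩, ?_, fun s hs hsH hs0 n hn =>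
        hcH.arch hG hn hsH hs0⟩
      · rw [← hG.lt (a 0), ap_mul, ap_inv, ha2, ha2]
        exact h1 zero_lt_one
      · intro s hs hsH hs0
        by_contra hcon
        push Not at hcon
        have hd : ∀ m ∈ Subgroup.normalizer (H : Set G), x0 ≤ m.1 x0 → m.1 x0 ≤ s.1 x0 →
            m ∈ H ∨ s⁻¹ * m ∈ H := by
          intro m hm k1 k2
          by_contra hno
          push Not at hno
          rcases lt_or_eq_of_le k1 with k1 | k1
          · rcases lt_or_eq_of_le k2 with k2 | k2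
            · exact absurd k2 (not_lt.2 (hcon m hm hno.1 hno.2 k1))
            · exact hno.2 (hcH.same k2.symm)
          · exact hno.1 (hcH.stab k1.symm)
        obtain ⟨k, hk⟩ := hcH.arch hG ha01 hsH hs0
        have hj : ∀ q : Set.Icc (0 : ℚ) 1, ∃ j : Fin (k + 1), (s ^ (j : ℕ))⁻¹ * ((a 0)⁻¹ * a q) ∈ H := by
          intro q
          obtain ⟨j, h3, h4⟩ := hcH.disc hG hs hd k ((a 0)⁻¹ * a q)
            (Subgroup.mul_mem _ (Subgroup.inv_mem _ (ha1 0)) (ha1 q)) (by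
              rw [← hG.le (a 0), ap_mul, ap_inv, ha2, ha2]
              exact h1.monotone q.2.1) (by
              refine le_trans ?_ hk.le
              rw [← hG.le (a 0), ap_mul, ap_mul, ap_inv, ap_inv, ha2, ha2]
              exact h1.monotone q.2.2)
          exact ⟨⟨j, Nat.lt_succ_of_le h3⟩, h4⟩
        choose j hj using hj
        haveI : Infinite (Set.Icc (0 : ℚ) 1) := Set.Icc.infinite zero_lt_one
        obtain ⟨p, q, hpq, hjpq⟩ := Finite.exists_ne_map_eq_of_infinite j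
        have h5 : ∀ p q : Set.Icc (0 : ℚ) 1, j p = j q → (a p)⁻¹ * a q ∈ H := by
          intro p q hpq
          have h6 := hj p
          have h7 := hj q
          rw [hpq] at h6
          have h8 := H.mul_mem (H.inv_mem h6) h7
          have e : ((s ^ (j q : ℕ))⁻¹ * ((a 0)⁻¹ * a p))⁻¹ * ((s ^ (j q : ℕ))⁻¹ * ((a 0)⁻¹ * a q)) =
            (a p)⁻¹ * a q := by group
          rwa [e] at h8
        rcases lt_trichotomy p.1 q.1 with h6 | h6 | h6
        · exact hne _ _ h6 (h5 p q hjpq)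
        · exact hpq (Subtype.ext h6)
        · exact hne _ _ h6 (h5 q p hjpq.symm)
    exact D.false hG hL

end Pool.Agent.H669.LO
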