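import Pool.Agent.H669.LO.Col
import Pool.Agent.H669.LO.Scat

set_option autoImplicit false

/-!
Pointwise limits of automorphisms which are not onto.
-/

namespace Pool.Agent.H669.LO

open Set

variable {Ω : Type} {G : Subgroup (Equiv.Perm ℕ)} [MulAction G Ω]

theorem exists_limit (hacl : ∀ F : Finset ℕ, (acl (G := G) Ω F).Finite) (ω : Ω)
    (hω : ω ∉ acl (G := G) Ω ∅) (x : ℕ) (hx : ∀ F : Finset ℕ, x ∈ F → ω ∈ acl (G := G) Ω F) :
    ∃ f : ℕ → ℕ, (∀ F : Finset ℕ, ∃ g : G, ∀ y ∈ F, g.1 y = f y) ∧ ∀ y, f y ≠ x := by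
  classical
  let P : Type := {u : G × Finset ℕ // ω ∉ acl (G := G) Ω (img u.1.1 u.2)}
  let le : P → P → Prop := fun u v => u.1.2 ⊆ v.1.2 ∧ ∀ x ∈ u.1.2, v.1.1.1 x = u.1.1.1 x
  have hletr : ∀ u v w : P, le u v → le v w → le u w := by
    intro u v w h1 h2
    refine ⟨h1.1.trans h2.1, fun x hx => ?_⟩
    rw [h2.2 x (h1.1 hx), h1.2 x hx]
  have hstep : ∀ (n : ℕ) (q : P), ∃ q' : P, le q q' ∧ n ∈ q'.1.2 := by
    intro n q
    -- the orbit of `ω` under the stabilizer of the image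
    have hinf : (MulAction.orbit (Fx G (img q.1.1.1 q.1.2)) ω).Infinite := q.2
    have hfin : ((fun ω' => q.1.1 • ω') '' acl (G := G) Ω (insert n q.1.2)).Finite :=
      (hacl _).image _
    obtain ⟨_, ⟨k, rfl⟩, hk⟩ := hinf.exists_notMem_finite hfin
    have hk' : ω ∉ acl (G := G) Ω (img (k.1⁻¹ * q.1.1).1 (insert n q.1.2)) := by
      intro h1
      apply hk
      refine ⟨q.1.1⁻¹ • k • ω, ?_, smul_inv_smul _ _⟩
      rw [← smul_mem_acl_img_iff (k.1⁻¹ * q.1.1), mul_smul, smul_inv_smul]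
      have : k.1⁻¹ • k • ω = ω := inv_smul_smul k.1 ω
      rw [this]
      exact h1
    refine ⟨⟨(k.1⁻¹ * q.1.1, insert n q.1.2), hk'⟩, ⟨Finset.subset_insert _ _, fun y hy => ?_⟩,
      Finset.mem_insert_self _ _⟩
    have h1 : k.1 ∈ Fx G (img q.1.1.1 q.1.2) := k.2
    have h2 := (Fx G (img q.1.1.1 q.1.2)).inv_mem h1
    exact h2 _ (mem_img.2 ⟨y, hy, rfl⟩)
  obtain ⟨s, -, hs1, hs2⟩ := fuse le (fun n q => n ∈ q.1.2) ⟨(1, ∅), by
    have : img (1 : G).1 ∅ = ∅ := rfl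
    rw [this]
    exact hω⟩ hstep
  have hmono : ∀ m n, m ≤ n → le (s m) (s n) := by
    intro m n hmn
    induction hmn with
    | refl => exact ⟨Finset.Subset.refl _, fun _ _ => rfl⟩
    | step _ ih => exact hletr _ _ _ ih (hs1 _)
  let f : ℕ → ℕ := fun x => (s (x + 1)).1.1.1 x
  have hf : ∀ n x, x ∈ (s n).1.2 → f x = (s n).1.1.1 x := by
    intro n x hx
    have h1 := (hmono _ _ (le_max_left n (x + 1))).2 x hx
    have h2 := (hmono _ _ (le_max_right n (x + 1))).2 x (hs2 x)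
    rw [← h1]
    exact h2.symm
  refine ⟨f, fun F => ?_, fun y hy => ?_⟩
  · have hFsub : ∃ n, F ⊆ (s n).1.2 := by
      refine ⟨F.sup id + 1, fun x hx => ?_⟩
      have h1 : x + 1 ≤ F.sup id + 1 := Nat.succ_le_succ (Finset.le_sup (f := id) hx)
      exact (hmono _ _ h1).1 (hs2 x)
    obtain ⟨n, hn⟩ := hFsub
    exact ⟨(s n).1.1, fun y hy => (hf n y (hn hy)).symm⟩
  · have h1 := (s (y + 1)).2
    apply h1
    apply hx
    exact mem_img.2 ⟨y, hs2 y, (hf (y + 1) y (hs2 y)).symm.trans hy⟩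

/-- The dichotomy for groups of automorphisms of linear orders. -/
theorem limit_of_rat (inst : LinearOrder ℕ) (G : Subgroup (Equiv.Perm ℕ)) (hG : @Full ℕ inst G)
    (x0 : ℕ) (e : ℚ → ℕ) (he : ∀ p q, p < q → inst.lt (e p) (e q))
    (he' : ∀ q, ∃ g : G, g.1 x0 = e q) : ∃ f : ℕ → ℕ, Lim G f ∧ ¬ Function.Surjective f := by
  obtain ⟨H, hH, hne, hT⟩ := @exists_T ℕ inst G x0 hG inferInstance e (fun p q h => he p q h) he'
  have hacl : ∀ F : Finset ℕ, (acl (G := G) (G ⧸ H) F).Finite := by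
    intro F
    refine (hH.acl_finite hG hT F).subset ?_
    intro ω hω
    refine Set.Finite.subset hω ?_
    rintro _ ⟨g, hg, rfl⟩
    exact ⟨⟨g, hg⟩, rfl⟩
  have hacl0 : ∀ ω : G ⧸ H, ω ∉ acl (G := G) (G ⧸ H) ∅ := by
    intro ω hω
    refine hH.orbit_inf hG hne ω (Set.Finite.subset hω ?_)
    rintro _ ⟨g, rfl⟩
    exact ⟨⟨g, fun x hx => absurd hx (Finset.notMem_empty x)⟩, rfl⟩
  obtain ⟨f, hf1, hf2⟩ := exists_limit hacl ((1 : G) : G ⧸ H) (hacl0 _) x0 (fun F hF => by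
    refine Set.Finite.subset (Set.finite_singleton ((1 : G) : G ⧸ H)) ?_
    rintro _ ⟨g, rfl⟩
    show ((g.1 * 1 : G) : G ⧸ H) = ((1 : G) : G ⧸ H)
    refine QuotientGroup.eq.2 (hH.same ?_)
    exact g.2 x0 hF)
  exact ⟨f, hf1, fun h => by
    obtain ⟨y, hy⟩ := h x0
    exact hf2 y hy⟩

end Pool.Agent.H669.LO
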