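import Pool.Agent.H669.LO.Up

set_option autoImplicit false
set_option linter.unusedSectionVars false
set_option linter.style.haveILetI false

/-!
The dichotomy for the expansions of a fixed countable coloured linear order.
-/

namespace Pool.Agent.H669.LO

open Set
open Pool.Agent.W889.VC

/-- Linear orders. -/
structure LinO (L : Colr) : Prop where
  irrefl : ∀ x, L.1 x x = false
  trans : ∀ x y z, L.1 x y = true → L.1 y z = true → L.1 x z = true
  total : ∀ x y, x ≠ y → L.1 x y = true ∨ L.1 y x = true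

/-- No orbit of the automorphism group contains a copy of the rational numbers. -/
def ScO (L : Colr) : Prop :=
  ∀ x : ℕ, ¬ ∃ e : ℚ → ℕ, (∀ p q, p < q → L.1 (e p) (e q) = true) ∧
    ∀ q, ∃ σ, CIso σ L L ∧ σ x = e q

/-- The automorphism group. -/
def AutC (L : Colr) : Subgroup (Equiv.Perm ℕ) where
  carrier := {σ | CIso σ L L}
  mul_mem' := fun h h' => h'.trans h
  one_mem' := ⟨fun _ _ => rfl, fun _ _ => rfl⟩
  inv_mem' := fun h => h.symm

theorem exists_order {L : Colr} (h : LinO L) :
    ∃ inst : LinearOrder ℕ, (∀ x y, inst.lt x y ↔ L.1 x y = true) ∧ @Full ℕ inst (AutC L) := by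
  classical
  letI : IsStrictTotalOrder ℕ (fun x y => L.1 x y = true) :=
    { trichotomous := fun a b h1 h2 => by
        by_contra hne
        rcases h.total a b hne with h | h
        · exact h1 h
        · exact h2 h
      irrefl := fun a ha => by rw [h.irrefl a] at ha; exact absurd ha (by decide)
      trans := h.trans }
  let inst : LinearOrder ℕ := linearOrderOfSTO (fun x y => L.1 x y = true)
  have hlt : ∀ x y, inst.lt x y ↔ L.1 x y = true := fun x y => Iff.rfl
  refine ⟨inst, hlt, ?_, ?_⟩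
  · intro g hg x y hxy
    have h1 : L.1 x y = true := hxy
    show L.1 (g x) (g y) = true
    rw [hg.1]
    exact h1
  · intro g hg hx
    have hm : ∀ x y, L.1 x y = true → L.1 (g x) (g y) = true := fun x y hxy => hg hxy
    have hlt' : ∀ x y, L.1 (g x) (g y) = true ↔ L.1 x y = true := by
      intro x y
      refine ⟨fun h1 => ?_, hm x y⟩
      by_contra h2
      have hne : x ≠ y := by
        intro e
        rw [e, h.irrefl] at h1
        exact absurd h1 (by decide)
      have h3 := h.trans _ _ _ h1 (hm _ _ ((h.total x y hne).resolve_left h2))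
      rw [h.irrefl] at h3
      exact absurd h3 (by decide)
    refine ⟨fun m n => ?_, fun i n => ?_⟩
    · rw [Bool.eq_iff_iff]
      exact hlt' m n
    · obtain ⟨k, hk, hk'⟩ := hx n
      rw [← hk']
      exact hk.2 i n

theorem lim_of {L : Colr} {f : ℕ → ℕ} (hf : ∀ n, ∃ σ, CIso σ L L ∧ ∀ i < n, σ i = f i) :
    Lim (AutC L) f := by
  intro F
  obtain ⟨σ, h1, h2⟩ := hf (F.sup id + 1)
  refine ⟨⟨σ, h1⟩, fun x hx => h2 x ?_⟩
  exact Nat.lt_succ_of_le (Finset.le_sup (f := id) hx)

theorem of_lim {L : Colr} {f : ℕ → ℕ} (hf : Lim (AutC L) f) (n : ℕ) :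
    ∃ σ, CIso σ L L ∧ ∀ i < n, σ i = f i := by
  obtain ⟨g, hg⟩ := hf (Finset.range n)
  exact ⟨g.1, g.2, fun i hi => hg i (Finset.mem_range.2 hi)⟩

/-- All limits of automorphisms are onto if and only if the orbits are scattered. -/
theorem onto_iff {L : Colr} (h : LinO L) : Onto L ↔ ScO L := by
  obtain ⟨inst, h1, h2⟩ := exists_order h
  constructor
  · rintro hO x ⟨e, he1, he2⟩
    obtain ⟨f, hf1, hf2⟩ := limit_of_rat inst (AutC L) h2 x e (fun p q hpq => (h1 _ _).2 (he1 p q hpq))
      (fun q => by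
        obtain ⟨σ, h3, h4⟩ := he2 q
        exact ⟨⟨σ, h3⟩, h4⟩)
    exact hf2 (hO f (of_lim hf1))
  · intro hS f hf
    by_contra hns
    obtain ⟨-, x0, e, he1, he2⟩ := exists_col inst (AutC L) h2 f (lim_of hf) hns
    refine hS x0 ⟨e, fun p q hpq => (h1 _ _).1 (he1 p q hpq), fun q => ?_⟩
    obtain ⟨g, hg⟩ := he2 q
    exact ⟨g.1, g.2, hg⟩

/-- codes of coloured orders -/
def encC (x : Colr) (n : ℕ) (l : List ℕ) : ℕ :=
  match l with
  | [m] => (x.2 n m).toNat
  | [m, k] => (x.1 m k).toNat
  | _ => 0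

theorem toNat_inj {a b : Bool} (h : a.toNat = b.toNat) : a = b := by
  cases a <;> cases b <;> simp_all

theorem isI_iff {σ : Equiv.Perm ℕ} {L M : Colr} : IsI encC σ L M ↔ CIso σ L M := by
  constructor
  · intro h
    exact ⟨fun m n => toNat_inj (h 0 [m, n]), fun i n => toNat_inj (h i [n])⟩
  · intro h n l
    rcases l with _ | ⟨m, _ | ⟨k, _ | ⟨j, l⟩⟩⟩
    · rfl
    · show (M.2 n (σ m)).toNat = (L.2 n m).toNat
      rw [h.2]
    · show (M.1 (σ m) (σ k)).toNat = (L.1 m k).toNat
      rw [h.1]
    · rfl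

theorem meas_encC (n : ℕ) (l : List ℕ) : Measurable (fun x : Colr => encC x n l) := by
  rcases l with _ | ⟨m, _ | ⟨k, _ | ⟨j, l⟩⟩⟩
  · exact measurable_const
  · have h : Measurable (fun x : Colr => x.2 n m) := by
      have h2' : Measurable (fun q : ℕ → ℕ → Bool => q n m) :=
        (measurable_pi_apply m).comp (measurable_pi_apply n)
      exact h2'.comp measurable_snd
    exact (measurable_of_countable Bool.toNat).comp h
  · have h : Measurable (fun x : Colr => x.1 m k) := by
      have h2' : Measurable (fun q : ℕ → ℕ → Bool => q m k) :=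
        (measurable_pi_apply k).comp (measurable_pi_apply m)
      exact h2'.comp measurable_fst
    exact (measurable_of_countable Bool.toNat).comp h
  · exact measurable_const

theorem faithful_pull {Y Z : Type} [MeasurableSpace Y] [MeasurableSpace Z] {E : Y → Y → Prop}
    {E' : Z → Z → Prop} {K : Y → Prop} {K' : Z → Prop} (Φ : Z → Y) (Ψ : Y → Z)
    (hΦ : Measurable Φ) (hΦΨ : ∀ y, K y → Φ (Ψ y) = y) (hE1 : ∀ z z', E' z z' → E (Φ z) (Φ z'))
    (hE2 : ∀ z z', K (Φ z) → K (Φ z') → E (Φ z) (Φ z') → E' z z')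
    (hK : ∀ z, K (Φ z) → K' z) (h : Faithful E K) : Faithful E' K' := by
  intro a B hB hinv
  obtain ⟨B', F, h1, h2, h3, h4, h5, h6, h7⟩ := h a B hB hinv
  refine ⟨Φ ⁻¹' B', fun z => F (Φ z), hΦ h1, fun y z hyz => h2 _ _ (hE1 y z hyz),
    fun z hz => hK z (h3 _ hz), h4.comp hΦ, fun z hz => h5 _ hz, fun y hy z hz => ?_,
    fun x hx => ?_⟩
  · rw [← h6 _ hy _ hz]
    exact ⟨hE1 y z, hE2 y z (h3 _ hy) (h3 _ hz)⟩
  · obtain ⟨y, hy, hxy⟩ := h7 x hx
    refine ⟨Ψ y, ?_, ?_⟩
    · show Φ (Ψ y) ∈ B'
      rw [hΦΨ y (h3 y hy)]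
      exact hy
    · show Iso x (F (Φ (Ψ y)))
      rw [hΦΨ y (h3 y hy)]
      exact hxy

/-- the equivalence relation coded by a binary relation -/
def eOf (z : Colr × StrI (fun _ : Unit => 2)) : BinStr := fun m n =>
  if m = n then z.2 () ![m, m] else if z.1.1 m n = true then z.2 () ![m, n] else z.2 () ![n, m]

/-- the graph coded by a binary relation -/
def rOf (z : Colr × StrI (fun _ : Unit => 2)) : BinStr := fun m n =>
  if m = n then false else if z.1.1 m n = true then z.2 () ![n, m] else z.2 () ![m, n]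

/-- from one binary relation to two binary relations -/
def toP (z : Colr × StrI (fun _ : Unit => 2)) : Colr × (BinStr × BinStr) := (z.1, (eOf z, rOf z))

/-- and back -/
def ofP (y : Colr × (BinStr × BinStr)) : Colr × StrI (fun _ : Unit => 2) :=
  (y.1, fun _ v => if v 0 = v 1 then y.2.1 (v 0) (v 0)
    else if y.1.1 (v 0) (v 1) = true then y.2.1 (v 0) (v 1) else y.2.2 (v 0) (v 1))

theorem ofP_apply (y : Colr × (BinStr × BinStr)) (m n : ℕ) : (ofP y).2 () ![m, n] =
    if m = n then y.2.1 m m else if y.1.1 m n = true then y.2.1 m n else y.2.2 m n := rfl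

theorem LinO.asymm {L : Colr} (h : LinO L) {m n : ℕ} (hmn : L.1 m n = true) :
    ¬ L.1 n m = true := by
  intro h'
  have := h.trans _ _ _ hmn h'
  rw [h.irrefl] at this
  exact absurd this (by decide)

theorem LinO.iso {L M : Colr} (h : LinO L) {σ : Equiv.Perm ℕ} (hσ : CIso σ L M) : LinO M := by
  have e : ∀ m, ∃ u, σ u = m := fun m => ⟨σ⁻¹ m, σ.apply_symm_apply m⟩
  refine ⟨fun x => ?_, fun x y z => ?_, fun x y hxy => ?_⟩
  · obtain ⟨x, rfl⟩ := e x
    rw [hσ.1]
    exact h.irrefl x
  · obtain ⟨x, rfl⟩ := e x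
    obtain ⟨y, rfl⟩ := e y
    obtain ⟨z, rfl⟩ := e z
    rw [hσ.1, hσ.1, hσ.1]
    exact h.trans x y z
  · obtain ⟨x, rfl⟩ := e x
    obtain ⟨y, rfl⟩ := e y
    rw [hσ.1, hσ.1]
    exact h.total x y fun e => hxy (by rw [e])

theorem toP_ofP {y : Colr × (BinStr × BinStr)} (hL : LinO y.1)
    (hE : ∀ m n, y.2.1 m n = true → y.2.1 n m = true) (hR : IsGraph y.2.2) :
    toP (ofP y) = y := by
  have hE' : ∀ m n, y.2.1 m n = y.2.1 n m := fun m n => by
    rw [Bool.eq_iff_iff]
    exact ⟨hE m n, hE n m⟩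
  have hR' : ∀ m n, y.2.2 m n = y.2.2 n m := fun m n => by
    rw [Bool.eq_iff_iff]
    exact ⟨hR.symm m n, hR.symm n m⟩
  have h1 : eOf (ofP y) = y.2.1 := by
    funext m n
    unfold eOf
    by_cases hmn : m = n
    · subst hmn
      rw [if_pos rfl, ofP_apply, if_pos rfl]
    · rw [if_neg hmn]
      by_cases hlt : y.1.1 m n = true
      · have hlt' : (ofP y).1.1 m n = true := hlt
        rw [if_pos hlt', ofP_apply, if_neg hmn, if_pos hlt]
      · have hlt' : ¬ (ofP y).1.1 m n = true := hlt
        rw [if_neg hlt', ofP_apply, if_neg (fun e => hmn e.symm),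
          if_pos ((hL.total m n hmn).resolve_left hlt)]
        exact hE' n m
  have h2 : rOf (ofP y) = y.2.2 := by
    funext m n
    unfold rOf
    by_cases hmn : m = n
    · subst hmn
      rw [if_pos rfl]
      exact (hR.irrefl m).symm
    · rw [if_neg hmn]
      by_cases hlt : y.1.1 m n = true
      · have hlt' : (ofP y).1.1 m n = true := hlt
        rw [if_pos hlt', ofP_apply, if_neg (fun e => hmn e.symm), if_neg (hL.asymm hlt)]
        exact hR' n m
      · have hlt' : ¬ (ofP y).1.1 m n = true := hlt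
        rw [if_neg hlt', ofP_apply, if_neg hmn, if_neg hlt]
  unfold toP
  rw [h1, h2]
  rfl

theorem meas_toP : Measurable toP := by
  have hS : ∀ m n : ℕ, Measurable (fun z : Colr × StrI (fun _ : Unit => 2) => z.2 () ![m, n]) := by
    intro m n
    have h2' : Measurable (fun q : StrI (fun _ : Unit => 2) => q () ![m, n]) :=
      (measurable_pi_apply (![m, n] : Fin 2 → ℕ)).comp (measurable_pi_apply ())
    exact h2'.comp measurable_snd
  have hL : ∀ m n : ℕ, Measurable (fun z : Colr × StrI (fun _ : Unit => 2) => z.1.1 m n) := by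
    intro m n
    have h2' : Measurable (fun q : ℕ → ℕ → Bool => q m n) :=
      (measurable_pi_apply n).comp (measurable_pi_apply m)
    exact h2'.comp (measurable_fst.comp measurable_fst)
  have hE : Measurable eOf := by
    refine measurable_pi_iff.2 fun m => measurable_pi_iff.2 fun n => ?_
    by_cases hmn : m = n
    · have : (fun z : Colr × StrI (fun _ : Unit => 2) => eOf z m n) = fun z => z.2 () ![m, m] :=
        funext fun z => if_pos hmn
      rw [this]
      exact hS m m
    · have : (fun z : Colr × StrI (fun _ : Unit => 2) => eOf z m n) =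
          (fun p : Bool × Bool × Bool => if p.1 = true then p.2.1 else p.2.2) ∘
          fun z => (z.1.1 m n, z.2 () ![m, n], z.2 () ![n, m]) :=
        funext fun z => if_neg hmn
      rw [this]
      exact (measurable_of_countable _).comp ((hL m n).prodMk ((hS m n).prodMk (hS n m)))
  have hR : Measurable rOf := by
    refine measurable_pi_iff.2 fun m => measurable_pi_iff.2 fun n => ?_
    by_cases hmn : m = n
    · have : (fun z : Colr × StrI (fun _ : Unit => 2) => rOf z m n) = fun z => false :=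
        funext fun z => if_pos hmn
      rw [this]
      exact measurable_const
    · have : (fun z : Colr × StrI (fun _ : Unit => 2) => rOf z m n) =
          (fun p : Bool × Bool × Bool => if p.1 = true then p.2.1 else p.2.2) ∘
          fun z => (z.1.1 m n, z.2 () ![n, m], z.2 () ![m, n]) :=
        funext fun z => if_neg hmn
      rw [this]
      exact (measurable_of_countable _).comp ((hL m n).prodMk ((hS n m).prodMk (hS m n)))
  exact measurable_fst.prodMk (hE.prodMk hR)

theorem comp2 (σ : Equiv.Perm ℕ) (m n : ℕ) : ⇑σ ∘ ![m, n] = ![σ m, σ n] := by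
  funext i
  fin_cases i <;> rfl

theorem ei_of_xiso {y z : Colr × StrI (fun _ : Unit => 2)} (h : XIso y z) :
    EI encC (toP y) (toP z) := by
  obtain ⟨σ, h1, h2⟩ := h
  have hS : ∀ m n, z.2 () ![σ m, σ n] = y.2 () ![m, n] := by
    intro m n
    have := h2 () ![m, n]
    rwa [comp2] at this
  refine ⟨σ, isI_iff.2 h1, fun m n => ⟨?_, ?_⟩⟩
  · show eOf z (σ m) (σ n) = eOf y m n
    unfold eOf
    rw [h1.1, hS, hS, hS]
    simp only [EmbeddingLike.apply_eq_iff_eq]
  · show rOf z (σ m) (σ n) = rOf y m n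
    unfold rOf
    rw [h1.1, hS, hS]
    simp only [EmbeddingLike.apply_eq_iff_eq]

theorem xiso_of_ei {y z : Colr × StrI (fun _ : Unit => 2)} (hy : LinO y.1)
    (h : EI encC (toP y) (toP z)) : XIso y z := by
  have e2 : ∀ v : Fin 2 → ℕ, ![v 0, v 1] = v := by
    intro v
    funext i
    fin_cases i <;> rfl
  obtain ⟨σ, h1, h2⟩ := h
  have h1' := isI_iff.1 h1
  have hE : ∀ m n, eOf z (σ m) (σ n) = eOf y m n := fun m n => (h2 m n).1
  have hR : ∀ m n, rOf z (σ m) (σ n) = rOf y m n := fun m n => (h2 m n).2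
  have hL : ∀ m n, z.1.1 (σ m) (σ n) = y.1.1 m n := h1'.1
  have hS : ∀ m n, z.2 () ![σ m, σ n] = y.2 () ![m, n] := by
    intro m n
    by_cases hmn : m = n
    · subst hmn
      have := hE m m
      unfold eOf at this
      rwa [if_pos rfl, if_pos rfl] at this
    · have hmn' : ¬ σ m = σ n := fun e => hmn (σ.injective e)
      by_cases hlt : y.1.1 m n = true
      · have hlt' : z.1.1 (σ m) (σ n) = true := by rw [hL]; exact hlt
        have := hE m n
        unfold eOf at this
        rwa [if_neg hmn', if_neg hmn, if_pos hlt', if_pos hlt] at this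
      · have hgt := (hy.total m n hmn).resolve_left hlt
        have hgt' : z.1.1 (σ n) (σ m) = true := by rw [hL]; exact hgt
        have := hR n m
        unfold rOf at this
        rwa [if_neg (fun e : σ n = σ m => hmn' e.symm), if_pos hgt',
          if_neg (fun e : n = m => hmn e.symm), if_pos hgt] at this
  refine ⟨σ, h1', fun i v => ?_⟩
  have h3 := hS (v 0) (v 1)
  rw [← comp2, e2] at h3
  exact h3

theorem borel_exp {ι : Type} [Countable ι] (a : ι → ℕ) : BorelSpace (Colr × StrI a) := by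
  haveI h1 : BorelSpace Colr := inferInstance
  haveI h2 : BorelSpace (StrI a) := inferInstance
  have h3 : SecondCountableTopology Colr := inferInstance
  exact @Prod.borelSpace Colr (StrI a) _ _ _ _ _ _ ⟨Or.inl h3⟩

/-- The expansions by one binary relation of an order with an orbit which is not scattered. -/
theorem faithful_one {L : Colr} (h : LinO L) (hS : ¬ ScO L) :
    Faithful XIso (fun y : Colr × StrI (fun _ : Unit => 2) => ∃ σ, CIso σ L y.1) := by
  rw [← onto_iff h] at hS
  unfold Onto at hS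
  push Not at hS
  obtain ⟨f, hf, hns⟩ := hS
  obtain ⟨inst, h1, h2⟩ := exists_order h
  obtain ⟨⟨col, hc1, hc2⟩, -⟩ := exists_col inst (AutC L) h2 f (lim_of hf) hns
  have hF : Faithful (EI encC) (Kx encC L) :=
    faithful_exp meas_encC target_Bip.faithful (fun x hx => hx.1) hc1 (fun ρ => by
      obtain ⟨g, hg⟩ := hc2 ρ
      exact ⟨g.1, isI_iff.2 g.2, hg⟩)
  have hlin : ∀ y, Kx encC L y → LinO y.1 := by
    rintro y ⟨⟨σ, hσ⟩, -⟩
    exact h.iso (isI_iff.1 hσ)
  refine faithful_pull toP ofP meas_toP (fun y hy => toP_ofP (hlin y hy) hy.2.1 hy.2.2)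
    (fun z z' => ei_of_xiso) (fun z z' hz _ => xiso_of_ei (hlin _ hz)) (fun z hz => ?_) hF
  obtain ⟨⟨σ, hσ⟩, -⟩ := hz
  exact ⟨σ, isI_iff.1 hσ⟩

end Pool.Agent.H669.LO
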