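import Pool.Agent.H669.LO.Chain
import Pool.Graph.R_seed8.W889.VC.BF

set_option autoImplicit false
set_option linter.unusedSectionVars false
set_option linter.style.haveILetI false

/-!
A convex subgroup of the automorphism group of a coloured linear order is not of infinite index in
its normalizer if the classes are densely ordered.
-/

namespace Pool.Agent.H669.LO

open Set

/-- Homogeneity of coloured dense linear orders in which all colours are dense. -/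
theorem homog {Q C : Type} [Countable Q] (lt : Q → Q → Prop) (hQ : Pool.Agent.W889.VC.DLO lt)
    (k : Q → C) (hk : ∀ b b1 b2, lt b1 b2 → ∃ b', lt b1 b' ∧ lt b' b2 ∧ k b' = k b)
    (p0 : Finset (Q × Q))
    (hp : (∀ p ∈ p0, ∀ q ∈ p0, (lt p.1 q.1 ↔ lt p.2 q.2)) ∧ ∀ p ∈ p0, k p.2 = k p.1) :
    ∃ e : Q ≃ Q, (∀ a a', lt a a' ↔ lt (e a) (e a')) ∧ (∀ a, k (e a) = k a) ∧
      ∀ p ∈ p0, e p.1 = p.2 := by
  classical
  let Gb : Finset (Q × Q) → Prop := fun f =>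
    (∀ p ∈ f, ∀ q ∈ f, (lt p.1 q.1 ↔ lt p.2 q.2)) ∧ ∀ p ∈ f, k p.2 = k p.1
  have key : ∀ f, Gb f → ∀ a b, (∀ p ∈ f, ((lt p.1 a ↔ lt p.2 b) ∧ (lt a p.1 ↔ lt b p.2))) →
      k b = k a → Gb (insert (a, b) f) := by
    intro f hf a b h1 h2
    refine ⟨?_, ?_⟩
    · intro p hp q hq
      rw [Finset.mem_insert] at hp hq
      rcases hp with rfl | hp <;> rcases hq with rfl | hq
      · exact iff_of_false (hQ.irrefl _) (hQ.irrefl _)
      · exact (h1 q hq).2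
      · exact (h1 p hp).1
      · exact hf.1 p hp q hq
    · intro p hp
      rw [Finset.mem_insert] at hp
      rcases hp with rfl | hp
      · exact h2
      · exact hf.2 p hp
  have inj : ∀ f, Gb f → ∀ p ∈ f, ∀ q ∈ f, (p.1 = q.1 ↔ p.2 = q.2) := by
    intro f hf p hp q hq
    have e1 := hf.1 p hp q hq
    have e2 := hf.1 q hq p hp
    constructor
    · intro h
      by_contra hne
      rcases hQ.total _ _ hne with h3 | h3
      · have := e1.2 h3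
        rw [h] at this
        exact hQ.irrefl _ this
      · have := e2.2 h3
        rw [h] at this
        exact hQ.irrefl _ this
    · intro h
      by_contra hne
      rcases hQ.total _ _ hne with h3 | h3
      · have := e1.1 h3
        rw [h] at this
        exact hQ.irrefl _ this
      · have := e2.1 h3
        rw [h] at this
        exact hQ.irrefl _ this
  obtain ⟨e, he⟩ := Pool.Agent.W889.VC.bf (fun f => Gb (f ∪ p0))
    (by
      rw [Finset.empty_union]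
      exact hp)
    (fun f hf a => by
      obtain ⟨b, h1, h2⟩ := Pool.Agent.W889.VC.forth lt lt hQ hQ k k hk (fun a => ⟨a, rfl⟩) _ hf a
      refine ⟨b, insert (a, b) f, Finset.subset_insert _ _, Finset.mem_insert_self _ _, ?_⟩
      rw [Finset.insert_union]
      exact key _ hf a b h1 h2)
    (fun f hf b => by
      obtain ⟨a, h1, h2⟩ := Pool.Agent.W889.VC.forth lt lt hQ hQ k k hk (fun a => ⟨a, rfl⟩)
        ((f ∪ p0).image Prod.swap)
        ⟨by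
          intro p hp q hq
          rw [Finset.mem_image] at hp hq
          obtain ⟨p, hp, rfl⟩ := hp
          obtain ⟨q, hq, rfl⟩ := hq
          exact (hf.1 p hp q hq).symm, by
          intro p hp
          rw [Finset.mem_image] at hp
          obtain ⟨p, hp, rfl⟩ := hp
          exact (hf.2 p hp).symm⟩ b
      refine ⟨a, insert (a, b) f, Finset.subset_insert _ _, Finset.mem_insert_self _ _, ?_⟩
      rw [Finset.insert_union]
      exact key _ hf a b (fun p hp => by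
          have := h1 p.swap (Finset.mem_image_of_mem _ hp)
          exact ⟨this.1.symm, this.2.symm⟩) h2.symm)
    (fun f hf p hp q hq => inj _ hf p (Finset.mem_union_left _ hp) q (Finset.mem_union_left _ hq))
  refine ⟨e, fun a a' => ?_, fun a => ?_, fun p hp => ?_⟩
  · obtain ⟨f, hf, h1, h2⟩ := he a a'
    exact hf.1 _ (Finset.mem_union_left _ h1) _ (Finset.mem_union_left _ h2)
  · obtain ⟨f, hf, h1, -⟩ := he a a
    exact hf.2 _ (Finset.mem_union_left _ h1)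
  · obtain ⟨f, hf, h1, -⟩ := he p.1 p.1
    exact (inj _ hf _ (Finset.mem_union_left _ h1) p (Finset.mem_union_right _ hp)).1 rfl

section blocks

variable {L : Type} [LinearOrder L] {G : Subgroup (Equiv.Perm L)} (x0 : L) (H N : Subgroup G)

/-- The classes of a convex subgroup `H` in the class of a larger convex subgroup `N`, which
normalizes `H`, are densely ordered in an archimedean way. -/
structure Dns : Prop where
  cH : Cvx x0 H
  le : H ≤ N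
  nrm : ∀ n ∈ N, ∀ h, n⁻¹ * h * n ∈ H ↔ h ∈ H
  pos : ∃ s ∈ N, s ∉ H ∧ x0 < s.1 x0
  dns : ∀ s ∈ N, s ∉ H → x0 < s.1 x0 →
    ∃ m ∈ N, m ∉ H ∧ s⁻¹ * m ∉ H ∧ x0 < m.1 x0 ∧ m.1 x0 < s.1 x0
  arch : ∀ s ∈ N, s ∉ H → x0 < s.1 x0 → ∀ n ∈ N, ∃ k : ℕ, n.1 x0 < (s ^ k).1 x0

/-- There are at least two classes between `y` and `y'`. -/
def Ll (y y' : L) : Prop :=
  ∃ n1 ∈ N, ∃ n2 ∈ N, n1⁻¹ * n2 ∉ H ∧ y < n1.1 x0 ∧ n1.1 x0 < n2.1 x0 ∧ n2.1 x0 < y'

/-- The convex hull of the class of `N`. -/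
def Lam : Set L := {y | ∃ m ∈ N, ∃ m' ∈ N, m.1 x0 ≤ y ∧ y ≤ m'.1 x0}

variable {x0 H N}

theorem Ll.lt {y y' : L} (h : Ll x0 H N y y') : y < y' := by
  obtain ⟨n1, -, n2, -, -, h1, h2, h3⟩ := h
  exact h1.trans (h2.trans h3)

theorem Ll.left {y y' y'' : L} (h1 : y ≤ y') (h : Ll x0 H N y' y'') : Ll x0 H N y y'' := by
  obtain ⟨n1, k1, n2, k2, k3, k4, k5, k6⟩ := h
  exact ⟨n1, k1, n2, k2, k3, h1.trans_lt k4, k5, k6⟩

theorem Ll.right {y y' y'' : L} (h : Ll x0 H N y y') (h1 : y' ≤ y'') : Ll x0 H N y y'' := by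
  obtain ⟨n1, k1, n2, k2, k3, k4, k5, k6⟩ := h
  exact ⟨n1, k1, n2, k2, k3, k4, k5, k6.trans_le h1⟩

theorem Ll.smul (hG : Full G) {n : G} (hn : n ∈ N) {y y' : L} (h : Ll x0 H N y y') :
    Ll x0 H N (n.1 y) (n.1 y') := by
  obtain ⟨n1, k1, n2, k2, k3, k4, k5, k6⟩ := h
  exact ⟨n * n1, N.mul_mem hn k1, n * n2, N.mul_mem hn k2, by rw [mul_same_iff]; exact k3,
    (hG.lt n).2 k4, (hG.lt n).2 k5, (hG.lt n).2 k6⟩

theorem Ll.smul_iff (hG : Full G) {n : G} (hn : n ∈ N) {y y' : L} :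
    Ll x0 H N (n.1 y) (n.1 y') ↔ Ll x0 H N y y' := by
  constructor
  · intro h
    have := h.smul hG (N.inv_mem hn)
    rwa [ap_inv', ap_inv'] at this
  · exact fun h => h.smul hG hn

theorem Dns.btw2 (hG : Full G) (D : Dns x0 H N) {n1 n2 : G} (h1 : n1 ∈ N) (h2 : n2 ∈ N)
    (h : n1⁻¹ * n2 ∉ H) (hlt : n1.1 x0 < n2.1 x0) :
    ∃ m ∈ N, n1⁻¹ * m ∉ H ∧ m⁻¹ * n2 ∉ H ∧ n1.1 x0 < m.1 x0 ∧ m.1 x0 < n2.1 x0 := by
  obtain ⟨m, k1, k2, k3, k4, k5⟩ := D.dns _ (N.mul_mem (N.inv_mem h1) h2) h (by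
    rw [← hG.lt n1, ap_mul, ap_inv]
    exact hlt)
  refine ⟨n1 * m, N.mul_mem h1 k1, by rwa [inv_mul_cancel_left], fun k6 => ?_, ?_, ?_⟩
  · apply k3
    have := H.inv_mem k6
    have e : ((n1 * m)⁻¹ * n2)⁻¹ = (n1⁻¹ * n2)⁻¹ * m := by group
    rwa [e] at this
  · exact (hG.lt n1).2 k4
  · have := (hG.lt n1).2 k5
    rwa [ap_mul, ap_inv] at this

theorem Dns.ll (hG : Full G) (D : Dns x0 H N) {n1 n2 : G} (h1 : n1 ∈ N) (h2 : n2 ∈ N)
    (h : n1⁻¹ * n2 ∉ H) (hlt : n1.1 x0 < n2.1 x0) : Ll x0 H N (n1.1 x0) (n2.1 x0) := by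
  obtain ⟨m, k1, k2, k3, k4, k5⟩ := D.btw2 hG h1 h2 h hlt
  obtain ⟨m', l1, l2, l3, l4, l5⟩ := D.btw2 hG k1 h2 k3 k5
  exact ⟨m, k1, m', l1, l2, k4, l4, l5⟩

theorem Dns.not_ll (hG : Full G) (D : Dns x0 H N) {n1 n2 : G} (h : n1⁻¹ * n2 ∈ H) :
    ¬ Ll x0 H N (n1.1 x0) (n2.1 x0) := by
  rintro ⟨a, -, b, -, h1, h2, h3, h4⟩
  apply h1
  have k1 := D.cH.btw hG h h2.le (h3.trans h4).le
  have k2 := D.cH.btw hG h (h2.trans h3).le h4.le
  exact mem_trans (mem_symm k1) k2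

theorem Ll.neg (hG : Full G) (D : Dns x0 H N) {y y'' : L} (h : Ll x0 H N y y'') (y' : L) :
    Ll x0 H N y y' ∨ Ll x0 H N y' y'' := by
  obtain ⟨n1, k1, n2, k2, k3, k4, k5, k6⟩ := h
  obtain ⟨m, a1, a2, a3, a4, a5⟩ := D.btw2 hG k1 k2 k3 k5
  obtain ⟨m', b1, b2, b3, b4, b5⟩ := D.btw2 hG a1 k2 a3 a5
  rcases lt_or_ge (m.1 x0) y' with h | h
  · exact Or.inl ⟨n1, k1, m, a1, a2, k4, a4, h⟩
  · exact Or.inr ⟨m', b1, n2, k2, b3, h.trans_lt b4, b5, k6⟩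

theorem Ll.dense (hG : Full G) (D : Dns x0 H N) {y y'' : L} (h : Ll x0 H N y y'') :
    ∃ n ∈ N, Ll x0 H N y (n.1 x0) ∧ Ll x0 H N (n.1 x0) y'' := by
  obtain ⟨n1, k1, n2, k2, k3, k4, k5, k6⟩ := h
  obtain ⟨m, a1, a2, a3, a4, a5⟩ := D.btw2 hG k1 k2 k3 k5
  exact ⟨m, a1, (D.ll hG k1 a1 a2 a4).left k4.le, (D.ll hG a1 k2 a3 a5).right k6.le⟩

theorem Lam.smul (hG : Full G) {n : G} (hn : n ∈ N) {y : L} (hy : y ∈ Lam x0 N) :
    n.1 y ∈ Lam x0 N := by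
  obtain ⟨m, h1, m', h2, h3, h4⟩ := hy
  exact ⟨n * m, N.mul_mem hn h1, n * m', N.mul_mem hn h2, (hG.le n).2 h3, (hG.le n).2 h4⟩

theorem Lam.self {n : G} (hn : n ∈ N) : n.1 x0 ∈ Lam x0 N := ⟨n, hn, n, hn, le_rfl, le_rfl⟩

theorem Dns.above (hG : Full G) (D : Dns x0 H N) {y : L} (hy : y ∈ Lam x0 N) :
    ∃ n ∈ N, Ll x0 H N y (n.1 x0) := by
  obtain ⟨m, h1, m', h2, h3, h4⟩ := hy
  obtain ⟨s, k1, k2, k3⟩ := D.pos
  refine ⟨m' * s, N.mul_mem h2 k1, (D.ll hG h2 (N.mul_mem h2 k1) ?_ ?_).left h4⟩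
  · rwa [inv_mul_cancel_left]
  · exact (hG.lt m').2 k3

theorem Dns.below (hG : Full G) (D : Dns x0 H N) {y : L} (hy : y ∈ Lam x0 N) :
    ∃ n ∈ N, Ll x0 H N (n.1 x0) y := by
  obtain ⟨m, h1, m', h2, h3, h4⟩ := hy
  obtain ⟨s, k1, k2, k3⟩ := D.pos
  have hs : s⁻¹ ∈ N := N.inv_mem k1
  refine ⟨m * s⁻¹, N.mul_mem h1 hs, (D.ll hG (N.mul_mem h1 hs) h1 ?_ ?_).right h3⟩
  · have e : (m * s⁻¹)⁻¹ * m = s := by group
    rwa [e]
  · refine (hG.lt m).2 ?_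
    rw [← hG.lt s, ap_inv]
    exact k3

/-- All orbits of `N` are dense. -/
theorem Dns.orb (hG : Full G) (D : Dns x0 H N) {y : L} (hy : y ∈ Lam x0 N) {z z' : L}
    (hz : Ll x0 H N z z') : ∃ n ∈ N, Ll x0 H N z (n.1 y) ∧ Ll x0 H N (n.1 y) z' := by
  obtain ⟨c, c1, c2, c3⟩ := hz.dense hG D
  obtain ⟨d, d1, d2, d3⟩ := c3.dense hG D
  have hcd : c⁻¹ * d ∉ H := fun h => D.not_ll hG h d2
  have hε : c⁻¹ * d ∈ N := N.mul_mem (N.inv_mem c1) d1
  have hεp : x0 < (c⁻¹ * d).1 x0 := by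
    rw [← hG.lt c, ap_mul, ap_inv]
    exact d2.lt
  obtain ⟨m, h1, m', h2, h3, h4⟩ := hy
  obtain ⟨k, hk⟩ := D.arch _ hε hcd hεp _ (N.mul_mem (N.inv_mem h1) h2)
  have hk' : y < (m * (c⁻¹ * d) ^ k).1 x0 := by
    refine h4.trans_lt ?_
    have := (hG.lt m).2 hk
    rwa [ap_mul, ap_inv] at this
  have hex : ∃ k : ℕ, y < (m * (c⁻¹ * d) ^ k).1 x0 := ⟨k, hk'⟩
  classical
  obtain ⟨j, hj1, hj2⟩ : ∃ j : ℕ, (m * (c⁻¹ * d) ^ j).1 x0 ≤ y ∧
      y < (m * (c⁻¹ * d) ^ (j + 1)).1 x0 := by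
    have h0 : Nat.find hex ≠ 0 := by
      intro h0
      have := Nat.find_spec hex
      rw [h0, pow_zero, mul_one] at this
      exact absurd h3 (not_le.2 this)
    obtain ⟨j, hj⟩ := Nat.exists_eq_succ_of_ne_zero h0
    refine ⟨j, ?_, ?_⟩
    · rw [← not_lt]
      exact Nat.find_min hex (by rw [hj]; exact Nat.lt_succ_self j)
    · have := Nat.find_spec hex
      rwa [hj] at this
  have hl : m * (c⁻¹ * d) ^ j ∈ N := N.mul_mem h1 (N.pow_mem hε j)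
  refine ⟨c * (m * (c⁻¹ * d) ^ j)⁻¹, N.mul_mem c1 (N.inv_mem hl), c2.right ?_, d3.left ?_⟩
  · have := (hG.le (c * (m * (c⁻¹ * d) ^ j)⁻¹)).2 hj1
    rw [← ap_mul, inv_mul_cancel_right] at this
    exact this
  · have := (hG.lt (c * (m * (c⁻¹ * d) ^ j)⁻¹)).2 hj2
    rw [← ap_mul] at this
    have e : c * (m * (c⁻¹ * d) ^ j)⁻¹ * (m * (c⁻¹ * d) ^ (j + 1)) = d := by
      rw [pow_succ]
      group
    rw [e] at this
    exact this.le

/-- Two points in one block. -/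
def Bl (x0 : L) (H N : Subgroup G) (y y' : L) : Prop := ¬ Ll x0 H N y y' ∧ ¬ Ll x0 H N y' y

theorem Bl.refl (y : L) : Bl x0 H N y y := ⟨fun h => lt_irrefl _ h.lt, fun h => lt_irrefl _ h.lt⟩

theorem Bl.symm {y y' : L} (h : Bl x0 H N y y') : Bl x0 H N y' y := ⟨h.2, h.1⟩

theorem Bl.trans (hG : Full G) (D : Dns x0 H N) {y y' y'' : L} (h : Bl x0 H N y y')
    (h' : Bl x0 H N y' y'') : Bl x0 H N y y'' :=
  ⟨fun k => (k.neg hG D y').elim h.1 h'.1, fun k => (k.neg hG D y').elim h'.2 h.2⟩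

theorem Bl.smul (hG : Full G) {n : G} (hn : n ∈ N) {y y' : L} (h : Bl x0 H N y y') :
    Bl x0 H N (n.1 y) (n.1 y') :=
  ⟨fun k => h.1 ((Ll.smul_iff hG hn).1 k), fun k => h.2 ((Ll.smul_iff hG hn).1 k)⟩

theorem Ll.congr (hG : Full G) (D : Dns x0 H N) {y y' z z' : L} (h : Ll x0 H N y z)
    (hy : Bl x0 H N y y') (hz : Bl x0 H N z z') : Ll x0 H N y' z' := by
  have h1 := (h.neg hG D y').resolve_left hy.1
  exact (h1.neg hG D z').resolve_right hz.2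

/-- Two points whose blocks are in one orbit. -/
def Or (x0 : L) (H N : Subgroup G) (z z' : L) : Prop := ∃ n ∈ N, Bl x0 H N (n.1 z) z'

theorem Or.symm (hG : Full G) {z z' : L} (h : Or x0 H N z z') : Or x0 H N z' z := by
  obtain ⟨n, hn, h⟩ := h
  refine ⟨n⁻¹, N.inv_mem hn, ?_⟩
  have := h.symm.smul hG (N.inv_mem hn)
  rwa [ap_inv'] at this

theorem Or.trans (hG : Full G) (D : Dns x0 H N) {z z' z'' : L} (h : Or x0 H N z z')
    (h' : Or x0 H N z' z'') : Or x0 H N z z'' := by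
  obtain ⟨n, hn, h⟩ := h
  obtain ⟨n', hn', h'⟩ := h'
  exact ⟨n' * n, N.mul_mem hn' hn, (h.smul hG hn').trans hG D h'⟩

/-- Densely ordered classes have automorphisms which fix one class and move another one. -/
theorem Dns.false (hG : Full G) (D : Dns x0 H N) (hL : Countable L) : False := by
  classical
  letI S : Setoid (Lam x0 N) :=
    ⟨fun y y' => Bl x0 H N y.1 y'.1, fun y => Bl.refl y.1, fun h => h.symm,
      fun h h' => h.trans hG D h'⟩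
  let Q := Quotient S
  let lt : Q → Q → Prop := fun q q' => Ll x0 H N q.out.1 q'.out.1
  have hout : ∀ y : Lam x0 N, Bl x0 H N (Quotient.mk S y).out.1 y.1 := fun y => Quotient.mk_out y
  have hmk : ∀ y y' : Lam x0 N, Bl x0 H N y.1 y'.1 → Quotient.mk S y = Quotient.mk S y' :=
    fun y y' h => Quotient.sound h
  have hmk' : ∀ y y' : Lam x0 N, Quotient.mk S y = Quotient.mk S y' → Bl x0 H N y.1 y'.1 :=
    fun y y' h => Quotient.exact h
  have ltmk : ∀ y y' : Lam x0 N, lt (Quotient.mk S y) (Quotient.mk S y') ↔ Ll x0 H N y.1 y'.1 :=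
    fun y y' => ⟨fun h => h.congr hG D (hout y) (hout y'),
      fun h => h.congr hG D (hout y).symm (hout y').symm⟩
  have hQ : Pool.Agent.W889.VC.DLO lt := by
    refine ⟨fun a h => lt_irrefl _ h.lt, fun a b c h h' => h.right h'.lt.le, fun a b hab => ?_,
      fun a b h => ?_, fun a => ?_, fun a => ?_⟩
    · by_contra hcon
      push Not at hcon
      apply hab
      rw [← Quotient.out_eq a, ← Quotient.out_eq b]
      exact hmk _ _ hcon
    · obtain ⟨n, hn, h1, h2⟩ := h.dense hG D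
      refine ⟨Quotient.mk S ⟨n.1 x0, Lam.self hn⟩, ?_, ?_⟩
      · exact h1.congr hG D (Bl.refl _) (hout ⟨n.1 x0, Lam.self hn⟩).symm
      · exact h2.congr hG D (hout ⟨n.1 x0, Lam.self hn⟩).symm (Bl.refl _)
    · obtain ⟨n, hn, h1⟩ := D.above hG a.out.2
      exact ⟨Quotient.mk S ⟨n.1 x0, Lam.self hn⟩,
        h1.congr hG D (Bl.refl _) (hout ⟨n.1 x0, Lam.self hn⟩).symm⟩
    · obtain ⟨n, hn, h1⟩ := D.below hG a.out.2
      exact ⟨Quotient.mk S ⟨n.1 x0, Lam.self hn⟩,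
        h1.congr hG D (hout ⟨n.1 x0, Lam.self hn⟩).symm (Bl.refl _)⟩
  let k : Q → Set Q := fun q => {q' | Or x0 H N q.out.1 q'.out.1}
  have hk1 : ∀ q q' : Q, Or x0 H N q.out.1 q'.out.1 → k q = k q' := fun q q' h =>
    Set.ext fun r => ⟨fun h' => (h.symm hG).trans hG D h', fun h' => h.trans hG D h'⟩
  have hk2 : ∀ q q' : Q, k q = k q' → Or x0 H N q.out.1 q'.out.1 := by
    intro q q' h
    have : q' ∈ k q' := ⟨1, N.one_mem, Bl.refl _⟩
    rw [← h] at this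
    exact this
  have hk : ∀ b b1 b2, lt b1 b2 → ∃ b', lt b1 b' ∧ lt b' b2 ∧ k b' = k b := by
    intro b b1 b2 h
    obtain ⟨n, hn, h1, h2⟩ := D.orb hG b.out.2 h
    have hm : n.1 b.out.1 ∈ Lam x0 N := Lam.smul hG hn b.out.2
    refine ⟨Quotient.mk S ⟨_, hm⟩, h1.congr hG D (Bl.refl _) (hout ⟨_, hm⟩).symm,
      h2.congr hG D (hout ⟨_, hm⟩).symm (Bl.refl _), hk1 _ _ ?_⟩
    exact Or.symm hG ⟨n, hn, (hout ⟨_, hm⟩).symm⟩
  -- three classes
  obtain ⟨t, ht1, ht2, ht3⟩ := D.pos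
  obtain ⟨s, hs1, hs2, hs3, hs4, hs5⟩ := D.dns t ht1 ht2 ht3
  have hst : s⁻¹ * t ∉ H := fun h => hs3 (mem_symm h)
  let q0 : Q := Quotient.mk S ⟨x0, Lam.self N.one_mem⟩
  let q1 : Q := Quotient.mk S ⟨s.1 x0, Lam.self hs1⟩
  let q2 : Q := Quotient.mk S ⟨t.1 x0, Lam.self ht1⟩
  have l01 : lt q0 q1 := (ltmk _ _).2 (D.ll hG N.one_mem hs1 (by rwa [inv_one, one_mul]) hs4)
  have l02 : lt q0 q2 := (ltmk _ _).2 (D.ll hG N.one_mem ht1 (by rwa [inv_one, one_mul]) ht3)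
  have hQc : Countable Q := inferInstance
  obtain ⟨e, he1, he2, he3⟩ := homog lt hQ k hk {(q0, q0), (q1, q2)} ⟨by
    intro p hp q hq
    rw [Finset.mem_insert, Finset.mem_singleton] at hp hq
    rcases hp with rfl | rfl <;> rcases hq with rfl | rfl
    · exact Iff.rfl
    · exact iff_of_true l01 l02
    · exact iff_of_false (fun h => hQ.irrefl _ (hQ.trans _ _ _ h l01))
        (fun h => hQ.irrefl _ (hQ.trans _ _ _ h l02))
    · exact iff_of_false (hQ.irrefl _) (hQ.irrefl _), by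
    intro p hp
    rw [Finset.mem_insert, Finset.mem_singleton] at hp
    rcases hp with rfl | rfl
    · rfl
    · refine hk1 _ _ ?_
      refine ⟨s * t⁻¹, N.mul_mem hs1 (N.inv_mem ht1), ?_⟩
      have h1 := (hout ⟨t.1 x0, Lam.self ht1⟩).smul hG (N.mul_mem hs1 (N.inv_mem ht1))
      have h2 : (s * t⁻¹).1 (t.1 x0) = s.1 x0 := by
        rw [ap_mul, ap_inv']
      rw [h2] at h1
      exact h1.trans hG D (hout ⟨s.1 x0, Lam.self hs1⟩).symm⟩
  have he0 : e q0 = q0 := he3 (q0, q0) (by simp)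
  have he12 : e q1 = q2 := he3 (q1, q2) (by simp)
  have hch : ∀ q : Q, ∃ n ∈ N, Bl x0 H N (n.1 q.out.1) (e q).out.1 :=
    fun q => hk2 q (e q) (he2 q).symm
  choose n hn1 hn2 using hch
  -- the automorphism
  have key : ∀ y : Lam x0 N, ∃ hm : (n (Quotient.mk S y)).1 y.1 ∈ Lam x0 N,
      Quotient.mk S ⟨(n (Quotient.mk S y)).1 y.1, hm⟩ = e (Quotient.mk S y) := by
    intro y
    refine ⟨Lam.smul hG (hn1 _) y.2, ?_⟩
    rw [← Quotient.out_eq (e (Quotient.mk S y))]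
    refine hmk _ _ ?_
    exact ((hout y).symm.smul hG (hn1 _)).trans hG D (hn2 _)
  let f : L → L := fun y => if hy : y ∈ Lam x0 N then (n (Quotient.mk S ⟨y, hy⟩)).1 y else y
  have hf1 : ∀ y : Lam x0 N, f y.1 = (n (Quotient.mk S y)).1 y.1 := fun y => dif_pos y.2
  have hf2 : ∀ y, y ∉ Lam x0 N → f y = y := fun y hy => dif_neg hy
  have hfm : StrictMono f := by
    intro y y' hyy
    by_cases hy : y ∈ Lam x0 N <;> by_cases hy' : y' ∈ Lam x0 N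
    · rw [hf1 ⟨y, hy⟩, hf1 ⟨y', hy'⟩]
      by_cases hb : Quotient.mk S ⟨y, hy⟩ = Quotient.mk S ⟨y', hy'⟩
      · rw [hb]
        exact (hG.lt _).2 hyy
      · have h1 : Ll x0 H N y y' := by
          by_contra h2
          exact hb (hmk ⟨y, hy⟩ ⟨y', hy'⟩ ⟨h2, fun h3 => lt_asymm hyy h3.lt⟩)
        have h2 := (he1 _ _).1 ((ltmk ⟨y, hy⟩ ⟨y', hy'⟩).2 h1)
        obtain ⟨hm, h3⟩ := key ⟨y, hy⟩
        obtain ⟨hm', h3'⟩ := key ⟨y', hy'⟩
        rw [← h3, ← h3'] at h2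
        exact ((ltmk _ _).1 h2).lt
    · rw [hf1 ⟨y, hy⟩, hf2 y' hy']
      obtain ⟨hm, -⟩ := key ⟨y, hy⟩
      obtain ⟨_, _, m', h2, _, h4⟩ := hm
      obtain ⟨m, h5, _, _, h6, _⟩ := hy
      refine h4.trans_lt ?_
      rw [← not_le]
      exact fun h7 => hy' ⟨m, h5, m', h2, h6.trans hyy.le, h7⟩
    · rw [hf2 y hy, hf1 ⟨y', hy'⟩]
      obtain ⟨hm, -⟩ := key ⟨y', hy'⟩
      obtain ⟨m', h2, _, _, h4, _⟩ := hm
      obtain ⟨_, _, m, h5, _, h6⟩ := hy'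
      refine lt_of_lt_of_le ?_ h4
      rw [← not_le]
      exact fun h7 => hy ⟨m', h2, m, h5, h7, hyy.le.trans h6⟩
    · rw [hf2 y hy, hf2 y' hy']
      exact hyy
  have hfs : Function.Surjective f := by
    intro z
    by_cases hz : z ∈ Lam x0 N
    · have hy : ((n (e.symm (Quotient.mk S ⟨z, hz⟩)))⁻¹).1 z ∈ Lam x0 N :=
        Lam.smul hG (N.inv_mem (hn1 _)) hz
      refine ⟨_, (hf1 ⟨_, hy⟩).trans ?_⟩
      have hq : Quotient.mk S ⟨_, hy⟩ = e.symm (Quotient.mk S ⟨z, hz⟩) := by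
        refine (hmk _ _ ?_).symm.trans (Quotient.out_eq _)
        have h1 := (hn2 (e.symm (Quotient.mk S ⟨z, hz⟩)))
        rw [Equiv.apply_symm_apply] at h1
        have h2 := (h1.trans hG D (hout ⟨z, hz⟩)).smul hG
          (N.inv_mem (hn1 (e.symm (Quotient.mk S ⟨z, hz⟩))))
        rwa [ap_inv'] at h2
      rw [hq]
      exact ap_inv _ _
    · exact ⟨z, hf2 z hz⟩
  let w : Equiv.Perm L := Equiv.ofBijective f ⟨hfm.injective, hfs⟩
  have hwf : ∀ y, w y = f y := fun y => rfl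
  have hwG : w ∈ G := by
    refine hG.pw w hfm fun x => ?_
    by_cases hx : x ∈ Lam x0 N
    · exact ⟨_, (n (Quotient.mk S ⟨x, hx⟩)).2, (hf1 ⟨x, hx⟩).symm⟩
    · exact ⟨1, G.one_mem, (hf2 x hx).symm⟩
  have hw0 : (⟨w, hwG⟩ : G) ∈ H := by
    obtain ⟨hm, h1⟩ := key ⟨x0, Lam.self N.one_mem⟩
    have h2 : e (Quotient.mk S ⟨x0, Lam.self N.one_mem⟩) =
      Quotient.mk S ⟨x0, Lam.self N.one_mem⟩ := he0
    rw [h2] at h1
    have h3 := hmk' _ _ h1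
    have h4 : n q0 ∈ H := by
      by_contra h5
      rcases lt_trichotomy ((n q0).1 x0) x0 with h6 | h6 | h6
      · refine h3.1 (D.ll hG (hn1 q0) N.one_mem ?_ h6)
        rw [mul_one]
        exact fun h7 => h5 (inv_inv (n q0) ▸ H.inv_mem h7)
      · exact h5 (D.cH.stab h6)
      · refine h3.2 (D.ll hG N.one_mem (hn1 q0) ?_ h6)
        rwa [inv_one, one_mul]
    have h5 : (n q0).1 x0 = (⟨w, hwG⟩ : G).1 x0 := (hf1 ⟨x0, Lam.self N.one_mem⟩).symm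
    have h6 := H.mul_mem h4 (D.cH.same h5)
    rwa [mul_inv_cancel_left] at h6
  have h1 : s⁻¹ * (⟨w, hwG⟩ * s) ∈ H := by
    rw [← mul_assoc]
    exact (D.nrm s hs1 _).2 hw0
  obtain ⟨hm, h2⟩ := key ⟨s.1 x0, Lam.self hs1⟩
  have h3 : e (Quotient.mk S ⟨s.1 x0, Lam.self hs1⟩) = Quotient.mk S ⟨t.1 x0, Lam.self ht1⟩ := he12
  rw [h3] at h2
  have h4 := hmk' _ _ h2
  have h5 : (n q1).1 (s.1 x0) = ((⟨w, hwG⟩ : G) * s).1 x0 := (hf1 ⟨s.1 x0, Lam.self hs1⟩).symm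
  have hwN : (⟨w, hwG⟩ : G) * s ∈ N := N.mul_mem (D.le hw0) hs1
  have h6 : (n q1).1 (s.1 x0) < t.1 x0 := by
    rw [h5]
    exact D.cH.ord hG h1 (by rw [inv_mul_cancel]; exact H.one_mem) hst hs5
  refine h4.1 ?_
  show Ll x0 H N ((n q1).1 (s.1 x0)) (t.1 x0)
  rw [h5] at h6 ⊢
  refine D.ll hG hwN ht1 (fun h7 => hst (mem_trans h1 h7)) h6

end blocks

end Pool.Agent.H669.LO
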