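import Pool.Graph.R_pool_sql_team_seeded_620a6dc7.Helper27.CF.Comp
import Pool.Graph.R_seed8.W889.VC.Fin
import Pool.Agent.H669.LO.FC
import Pool.Agent.H669.LO.Limit

set_option autoImplicit false
set_option linter.unusedSectionVars false

/-!
Expansions of coloured linear orders: coding by structures, Vaught's conjecture and faithful
completeness.
-/

namespace Pool.Agent.H669.LO

open Set
open Pool.Agent.W889.VC

/-- Structures in a relational language. -/
abbrev StrI {ι : Type} (a : ι → ℕ) : Type := (i : ι) → (Fin (a i) → ℕ) → Bool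

/-- Coloured binary relations. -/
abbrev Colr : Type := (ℕ → ℕ → Bool) × (ℕ → ℕ → Bool)

/-- Isomorphisms of coloured binary relations. -/
def CIso (σ : Equiv.Perm ℕ) (L M : Colr) : Prop :=
  (∀ m n, M.1 (σ m) (σ n) = L.1 m n) ∧ ∀ i n, M.2 i (σ n) = L.2 i n

/-- Isomorphism of expansions. -/
def XIso {ι : Type} {a : ι → ℕ} (y z : Colr × StrI a) : Prop :=
  ∃ σ : Equiv.Perm ℕ, CIso σ y.1 z.1 ∧ ∀ i v, z.2 i (⇑σ ∘ v) = y.2 i v

theorem CIso.symm {σ : Equiv.Perm ℕ} {L M : Colr} (h : CIso σ L M) : CIso σ⁻¹ M L := by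
  have e : ∀ m, σ (σ⁻¹ m) = m := fun m => σ.apply_symm_apply m
  refine ⟨fun m n => ?_, fun i n => ?_⟩
  · rw [← h.1, e, e]
  · rw [← h.2, e]

theorem CIso.trans {σ τ : Equiv.Perm ℕ} {L M N : Colr} (h : CIso σ L M) (h' : CIso τ M N) :
    CIso (τ * σ) L N := by
  refine ⟨fun m n => ?_, fun i n => ?_⟩
  · rw [← h.1, ← h'.1]
    rfl
  · rw [← h.2, ← h'.2]
    rfl

/-! ### Coding of expansions -/

theorem back_cls {Y : Type} [TopologicalSpace Y] [MeasurableSpace Y] {E : Y → Y → Prop}
    {b : ℕ → ℕ} (up : Y → Str b) (down : Str b → Y) (hc : Continuous down) (hm : Measurable down)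
    (hud : ∀ x, up (down x) = x) (hdu : ∀ y, down (up y) = y)
    (hE : ∀ y z, E y z ↔ Iso (up y) (up z)) (V : Str b → Prop) (K : Y → Prop)
    (hK : ∀ y, K y → V (up y)) (h : VCof True (Iso (a := b)) V) : VCof True E K := by
  intro B hB hinv hBK
  have hE' : ∀ x x', E (down x) (down x') ↔ Iso x x' := by
    intro x x'
    rw [hE, hud, hud]
  rcases h (down ⁻¹' B) (hm hB) (fun x y hxy => hinv _ _ ((hE' x y).2 hxy)) (fun x hx => by
      have := hK _ (hBK _ hx)
      rwa [hud] at this) with ⟨f, hf⟩ | ⟨g, h1, h2, h3⟩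
  · left
    refine ⟨fun n => down (f n), fun y hy => ?_⟩
    obtain ⟨n, hn⟩ := hf (up y) (by
      show down (up y) ∈ B
      rw [hdu]
      exact hy)
    refine ⟨n, ?_⟩
    rw [hE, hud]
    exact hn
  · right
    exact ⟨fun c => down (g c), fun hcont => hc.comp (h1 hcont), fun c => h2 c,
      fun c d hcd => h3 c d ((hE' _ _).1 hcd)⟩

section code

variable {ι : Type} (a : ι → ℕ)

/-- arities -/
def ar : Option (ℕ ⊕ ι) → ℕ
  | none => 2
  | some (.inl _) => 1
  | some (.inr i) => a i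

/-- the type of the relations -/
abbrev Pt (j : Option (ℕ ⊕ ι)) : Type := (Fin (ar a j) → ℕ) → Bool

/-- the relations of an expansion -/
def zI (y : Colr × StrI a) : (j : Option (ℕ ⊕ ι)) → Pt a j
  | none => fun v => y.1.1 (v (0 : Fin 2)) (v (1 : Fin 2))
  | some (.inl i) => fun v => y.1.2 i (v (0 : Fin 1))
  | some (.inr i) => y.2 i

/-- the expansion with given relations -/
def unI (w : (j : Option (ℕ ⊕ ι)) → Pt a j) : Colr × StrI a :=
  ((fun m n => w none (![m, n] : Fin 2 → ℕ), fun i m => w (some (.inl i)) (![m] : Fin 1 → ℕ)),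
    fun i => w (some (.inr i)))

theorem unI_zI (y : Colr × StrI a) : unI a (zI a y) = y := rfl

theorem zI_unI (w : (j : Option (ℕ ⊕ ι)) → Pt a j) : zI a (unI a w) = w := by
  funext j
  rcases j with _ | i | i
  · funext v
    show w none (![v (0 : Fin 2), v (1 : Fin 2)] : Fin 2 → ℕ) = w none v
    congr 1
    funext i
    fin_cases i <;> rfl
  · funext v
    show w (some (.inl i)) (![v (0 : Fin 1)] : Fin 1 → ℕ) = w (some (.inl i)) v
    congr 1
    funext i
    fin_cases i
    rfl
  · rfl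

variable {a}

theorem xiso_iff {y z : Colr × StrI a} : XIso y z ↔
    ∃ σ : Equiv.Perm ℕ, ∀ j v, zI a z j (⇑σ ∘ v) = zI a y j v := by
  constructor
  · rintro ⟨σ, h1, h2⟩
    refine ⟨σ, fun j v => ?_⟩
    rcases j with _ | i | i
    · exact h1.1 _ _
    · exact h1.2 _ _
    · exact h2 i v
  · rintro ⟨σ, h⟩
    exact ⟨σ, ⟨fun m n => h none (![m, n] : Fin 2 → ℕ), fun i n => h (some (.inl i))
      (![n] : Fin 1 → ℕ)⟩, fun i v => h (some (.inr i)) v⟩

variable (e : ℕ ≃ Option (ℕ ⊕ ι))

/-- the code of an expansion -/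
def upE (y : Colr × StrI a) : Str (fun n => ar a (e n)) := fun n => zI a y (e n)

/-- decoding -/
def dnE (x : Str (fun n => ar a (e n))) : Colr × StrI a :=
  unI a (Equiv.piCongrLeft (Pt a) e x)

theorem dnE_apply (x : Str (fun n => ar a (e n))) (n : ℕ) :
    Equiv.piCongrLeft (Pt a) e x (e n) = x n := Equiv.piCongrLeft_apply_apply (Pt a) e x n

theorem up_dn (x : Str (fun n => ar a (e n))) : upE e (dnE e x) = x := by
  funext n
  unfold upE dnE
  rw [zI_unI, dnE_apply]

theorem dn_up (y : Colr × StrI a) : dnE e (upE e y) = y := by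
  unfold dnE
  have : Equiv.piCongrLeft (Pt a) e (upE e y) = zI a y := by
    funext j
    obtain ⟨n, rfl⟩ := e.surjective j
    rw [dnE_apply]
    rfl
  rw [this, unI_zI]

theorem iso_up (y z : Colr × StrI a) : XIso y z ↔ Iso (upE e y) (upE e z) := by
  rw [xiso_iff]
  constructor
  · rintro ⟨σ, h⟩
    exact ⟨σ, fun n v => h (e n) v⟩
  · rintro ⟨σ, h⟩
    refine ⟨σ, fun j v => ?_⟩
    obtain ⟨n, rfl⟩ := e.surjective j
    exact h n v

theorem cont_pi : Continuous (fun x : Str (fun n => ar a (e n)) =>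
    (Equiv.piCongrLeft (Pt a) e x : (j : Option (ℕ ⊕ ι)) → Pt a j)) := by
  refine continuous_pi fun j => ?_
  obtain ⟨n, rfl⟩ := e.surjective j
  have : (fun x : Str (fun n => ar a (e n)) => Equiv.piCongrLeft (Pt a) e x (e n)) =
      fun x => x n := funext fun x => dnE_apply e x n
  rw [this]
  exact continuous_apply n

theorem meas_pi : Measurable (fun x : Str (fun n => ar a (e n)) =>
    (Equiv.piCongrLeft (Pt a) e x : (j : Option (ℕ ⊕ ι)) → Pt a j)) := by
  refine measurable_pi_iff.2 fun j => ?_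
  obtain ⟨n, rfl⟩ := e.surjective j
  have : (fun x : Str (fun n => ar a (e n)) => Equiv.piCongrLeft (Pt a) e x (e n)) =
      fun x => x n := funext fun x => dnE_apply e x n
  rw [this]
  exact measurable_pi_apply n

theorem cont_dn : Continuous (dnE e : Str (fun n => ar a (e n)) → Colr × StrI a) := by
  have h : Continuous (unI a) := by
    refine Continuous.prodMk (Continuous.prodMk ?_ ?_) ?_
    · exact continuous_pi fun m => continuous_pi fun n =>
        (continuous_apply (![m, n] : Fin 2 → ℕ)).comp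
          (continuous_apply (A := Pt a) (none : Option (ℕ ⊕ ι)))
    · exact continuous_pi fun i => continuous_pi fun n =>
        (continuous_apply (![n] : Fin 1 → ℕ)).comp
          (continuous_apply (A := Pt a) (some (.inl i) : Option (ℕ ⊕ ι)))
    · exact continuous_pi fun i => continuous_apply (A := Pt a) (some (.inr i) : Option (ℕ ⊕ ι))
  exact h.comp (cont_pi e)

theorem meas_dn : Measurable (dnE e : Str (fun n => ar a (e n)) → Colr × StrI a) := by
  have h : Measurable (unI a) := by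
    refine Measurable.prodMk (Measurable.prodMk ?_ ?_) ?_
    · exact measurable_pi_iff.2 fun m => measurable_pi_iff.2 fun n =>
        (measurable_pi_apply (![m, n] : Fin 2 → ℕ)).comp
          (measurable_pi_apply (X := Pt a) (none : Option (ℕ ⊕ ι)))
    · exact measurable_pi_iff.2 fun i => measurable_pi_iff.2 fun n =>
        (measurable_pi_apply (![n] : Fin 1 → ℕ)).comp
          (measurable_pi_apply (X := Pt a) (some (.inl i) : Option (ℕ ⊕ ι)))
    · exact measurable_pi_iff.2 fun i =>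
        measurable_pi_apply (X := Pt a) (some (.inr i) : Option (ℕ ⊕ ι))
  exact h.comp (meas_pi e)

end code

/-- All pointwise limits of automorphisms are onto. -/
def Onto (L : Colr) : Prop :=
  ∀ f : ℕ → ℕ, (∀ n, ∃ σ, CIso σ L L ∧ ∀ i < n, σ i = f i) → Function.Surjective f

theorem vcof_all {ι : Type} [Countable ι] (a : ι → ℕ) (K : Colr × StrI a → Prop)
    (h : ∀ b : ℕ → ℕ, VCof True (Iso (a := b)) (fun _ => True)) : VCof True XIso K := by
  obtain ⟨e⟩ : Nonempty (ℕ ≃ Option (ℕ ⊕ ι)) := nonempty_equiv_of_countable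
  exact back_cls (upE e) (dnE e) (cont_dn e) (meas_dn e) (up_dn e) (dn_up e) (iso_up e)
    (fun _ => True) K (fun _ _ => trivial) (h _)

theorem vcof_cli (b : ℕ → ℕ) :
    VCof True (Iso (a := b)) (Pool.Agent.Helper27.CF.Cli (a := b)) := by
  intro B hB hinv hK
  rcases Pool.Agent.H533R2.VS.vs_plain b _ (Pool.Agent.Helper27.CF.vcu_cli b) B hB hinv hK with
    h | ⟨g, h1, h2⟩
  · exact Or.inl h
  · exact Or.inr ⟨g, fun _ => h1, h2⟩

theorem vcof_exp {ι : Type} [Countable ι] (a : ι → ℕ) (K : Colr × StrI a → Prop)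
    (hK : ∀ y, K y → Onto y.1) : VCof True XIso K := by
  obtain ⟨e⟩ : Nonempty (ℕ ≃ Option (ℕ ⊕ ι)) := nonempty_equiv_of_countable
  refine back_cls (upE e) (dnE e) (cont_dn e) (meas_dn e) (up_dn e) (dn_up e) (iso_up e)
    Pool.Agent.Helper27.CF.Cli K (fun y hy f hf => ?_) (vcof_cli _)
  refine hK y hy f fun n => ?_
  obtain ⟨σ, h1, h2⟩ := hf n
  have h3 : ∀ j v, zI a y j (⇑σ ∘ v) = zI a y j v := by
    intro j v
    obtain ⟨n, rfl⟩ := e.surjective j
    exact h1 n v
  exact ⟨σ, ⟨fun m n => h3 none (![m, n] : Fin 2 → ℕ), fun i n => h3 (some (.inl i))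
    (![n] : Fin 1 → ℕ)⟩, h2⟩

end Pool.Agent.H669.LO
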